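import Mathlib

/-!
Cycles of the heavy-ball method on smooth strongly convex functions.
-/

namespace Pool.Agent.Lib.MP_5a160e_an

variable (E : Type) [NormedAddCommGroup E] [InnerProductSpace ℝ E] [CompleteSpace E]

/-- `f` is differentiable, `μ`-strongly convex and has `L`-Lipschitz gradient. -/
def InClass (μ L : ℝ) (f : E → ℝ) : Prop :=
  Differentiable ℝ f ∧ StrongConvexOn Set.univ μ f ∧
    ∀ x y, ‖gradient f x - gradient f y‖ ≤ L * ‖x - y‖

/-- The heavy-ball method with tuning `(γ, β)` has a cycle of some length `K ≥ 3` in the space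
`E`: a non-constant `K`-periodic sequence which is the heavy-ball orbit of a function of the
class. -/
def HasCycle (μ L γ β : ℝ) : Prop :=
  ∃ K : ℕ, 3 ≤ K ∧ ∃ x : ℕ → E, (∀ t, x (t + K) = x t) ∧ (∃ s t, x s ≠ x t) ∧
    ∃ f : E → ℝ, InClass E μ L f ∧
      ∀ t, x (t + 2) = x (t + 1) - γ • gradient f (x (t + 1)) + β • (x (t + 1) - x t)

end Pool.Agent.Lib.MP_5a160e_an
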