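import Pool.Agent.Lib.MP_5a160e_an.Local

/-!
The multiplier inequality: no scalar cycle near the critical tuning.
-/

namespace Pool.Agent.Lib.MP_5a160e_an

open Finset Filter Topology

variable {K : ℕ}

theorem sum_shift {F : ℕ → ℝ} (h : ∀ t, F (t + K) = F t) (n : ℕ) :
    ∑ t ∈ range K, F (t + n) = ∑ t ∈ range K, F t := by
  induction n with
  | zero => rfl
  | succ n ih =>
    have e1 := sum_range_succ (fun t => F (t + n)) K
    have e2 := sum_range_succ' (fun t => F (t + n)) K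
    have e3 : F (K + n) = F (0 + n) := by rw [zero_add, add_comm, h]
    have e4 : ∑ t ∈ range K, F (t + (n + 1)) = ∑ t ∈ range K, F (t + 1 + n) :=
      sum_congr rfl fun t _ => by congr 1; ring
    rw [e4, ← ih]; linarith

/-- Autocorrelation over one period. -/
def rr (K : ℕ) (x : ℕ → ℝ) (k : ℕ) : ℝ := ∑ t ∈ range K, x t * x (t + k)

theorem per_add {x : ℕ → ℝ} (h : ∀ t, x (t + K) = x t) (t i : ℕ) : x (t + K + i) = x (t + i) := by
  rw [add_right_comm, h]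

theorem rr_dist {x : ℕ → ℝ} (h : ∀ t, x (t + K) = x t) (i j : ℕ) :
    ∑ t ∈ range K, x (t + i) * x (t + j) = rr K x (Nat.dist i j) := by
  wlog hij : i ≤ j generalizing i j
  · rw [Nat.dist_comm, ← this j i (by omega)]
    exact sum_congr rfl fun t _ => mul_comm _ _
  obtain ⟨k, rfl⟩ := Nat.exists_eq_add_of_le hij
  rw [Nat.dist_eq_sub_of_le hij, Nat.add_sub_cancel_left, rr,
    ← sum_shift (F := fun t => x t * x (t + k)) (fun t => by rw [h, per_add h]) i]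
  exact sum_congr rfl fun t _ => by rw [add_assoc]

theorem bil {x : ℕ → ℝ} (h : ∀ t, x (t + K) = x t) {n : ℕ} (α β : Fin n → ℝ) (s : ℕ) :
    ∑ t ∈ range K, (∑ i, α i * x (t + i)) * (∑ j, β j * x (t + (s + j))) =
      ∑ i, ∑ j, α i * β j * rr K x (Nat.dist i (s + j)) := by
  simp only [sum_mul_sum]
  simp only [← rr_dist h, mul_sum]
  rw [sum_comm]
  refine sum_congr rfl fun i _ => ?_
  rw [sum_comm]
  exact sum_congr rfl fun j _ => sum_congr rfl fun t _ => by ring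

theorem sum_uw {x : ℕ → ℝ} (h : ∀ t, x (t + K) = x t) (c1 c2 β : ℝ) (s : ℕ) :
    ∑ t ∈ range K, uu c1 β x t * ww c2 β x (t + s) =
      ∑ i : Fin 3, ∑ j : Fin 3, ![-β, c1, -1] i * ![β, c2, 1] j * rr K x (Nat.dist i (s + j)) := by
  rw [← bil h]
  refine sum_congr rfl fun t _ => ?_
  simp [Fin.sum_univ_succ, uu, ww, add_assoc]
  ring

theorem sum_wu {x : ℕ → ℝ} (h : ∀ t, x (t + K) = x t) (c1 c2 β : ℝ) (s : ℕ) :
    ∑ t ∈ range K, ww c2 β x t * uu c1 β x (t + s) =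
      ∑ i : Fin 3, ∑ j : Fin 3, ![β, c2, 1] i * ![-β, c1, -1] j * rr K x (Nat.dist i (s + j)) := by
  rw [← bil h]
  refine sum_congr rfl fun t _ => ?_
  simp [Fin.sum_univ_succ, uu, ww, add_assoc]
  ring

theorem sum_vv {x : ℕ → ℝ} (h : ∀ t, x (t + K) = x t) (φ : ℝ) :
    ∑ t ∈ range K, vv φ x t ^ 2 = (4 + 2 * φ ^ 2) * rr K x 0 - 2 * (2 + 2 * φ + φ ^ 2) * rr K x 1 +
      8 * φ * rr K x 2 - 2 * (2 * φ + 1) * rr K x 3 + 4 * rr K x 4 - 2 * rr K x 5 := by
  have := bil h ![-1, 1, -φ, φ, -1, 1] ![-1, 1, -φ, φ, -1, 1] 0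
  have e : ∀ t, ∑ i : Fin 6, ![-1, 1, -φ, φ, -1, 1] i * x (t + i) = vv φ x t := fun t => by
    simp [Fin.sum_univ_succ, vv]; ring
  simp only [zero_add, e, ← sq] at this
  rw [this]
  simp [Fin.sum_univ_succ, Nat.dist]
  ring

theorem energy {x : ℕ → ℝ} (h : ∀ t, x (t + K) = x t) (k : ℕ) :
    ∑ t ∈ range K, (x (t + k) - x t) ^ 2 = 2 * (rr K x 0 - rr K x k) := by
  have e := rr_dist h k k
  rw [Nat.dist_self] at e
  rw [mul_sub, two_mul, ← e]
  nth_rewrite 2 [e]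
  simp only [rr, mul_sum, ← sum_add_distrib, ← sum_sub_distrib]
  exact sum_congr rfl fun t _ => by rw [add_zero]; ring

theorem energy_succ {x : ℕ → ℝ} (h : ∀ t, x (t + K) = x t) (k : ℕ) :
    rr K x 0 - rr K x (k + 1) ≤ 2 * (rr K x 0 - rr K x 1) + 2 * (rr K x 0 - rr K x k) := by
  have e1 := energy h (k + 1)
  have e2 := energy h k
  have e3 := energy h 1
  rw [← sum_shift (F := fun t => (x (t + 1) - x t) ^ 2) (fun t => by rw [h, per_add h]) k] at e3
  have : ∑ t ∈ range K, (x (t + (k + 1)) - x t) ^ 2 ≤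
      ∑ t ∈ range K, (2 * (x (t + k + 1) - x (t + k)) ^ 2 + 2 * (x (t + k) - x t) ^ 2) :=
    sum_le_sum fun t _ => by
      rw [← add_assoc]
      nlinarith [sq_nonneg (x (t + k + 1) - 2 * x (t + k) + x t)]
  rw [sum_add_distrib, ← mul_sum, ← mul_sum] at this
  linarith

theorem Df_le (φ : ℝ) (P : ℝ × ℝ × ℝ) (x : ℕ → ℝ) (D : ℕ → ℕ → ℝ) (H : ℕ → ℝ)
    (hD : ∀ a b, D a b = H a - H b - uu P.1 P.2.2 x b * (ww P.2.1 P.2.2 x a - ww P.2.1 P.2.2 x b))
    (h0 : ∀ a b, 0 ≤ D a b) :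
    Df φ P x ≤ ∑ j ∈ range 10, (vv φ x j ^ 2 + 20 * (D j (j + 1) + D (j + 3) j)) := by
  rw [sum_add_distrib, Df, add_le_add_iff_left]
  have e : ∑ j ∈ range 10, 20 * (D j (j + 1) + D (j + 3) j) = ∑ a ∈ range 10, ∑ b ∈ range 10,
      ((D a (a + 1) + D (a + 3) a) + (D b (b + 1) + D (b + 3) b)) := by
    have : ∀ F : ℕ → ℝ, ∑ j ∈ range 10, 20 * F j = ∑ a ∈ range 10, ∑ b ∈ range 10, (F a + F b) :=
      fun F => by
        simp only [sum_add_distrib, sum_const, card_range, ← mul_sum, nsmul_eq_mul]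
        push_cast; ring
    exact this fun j => D j (j + 1) + D (j + 3) j
  rw [e]
  refine sum_le_sum fun a _ => sum_le_sum fun b _ => ?_
  have a0 := add_nonneg (h0 a b) (h0 b a)
  have a1 := add_nonneg (h0 a (b + 1)) (h0 b (a + 1))
  have a3 := add_nonneg (h0 (a + 3) b) (h0 (b + 3) a)
  have b1 := add_nonneg (h0 a (a + 1)) (h0 b (b + 1))
  have b3 := add_nonneg (h0 (a + 3) a) (h0 (b + 3) b)
  have aux : ∀ A B C b c : ℝ, A ≤ 0 → B ≤ b → C ≤ c → 0 ≤ b → 0 ≤ c →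
      max 0 A + max 0 B + max 0 C ≤ b + c := fun A B C b c h1 h2 h3 h4 h5 => by
    linarith [max_le le_rfl h1, max_le h4 h2, max_le h5 h3]
  refine (aux _ _ _ _ _ ?_ ?_ ?_ b1 b3).trans_eq (by ring)
  · simp only [hD] at a0; linarith
  · simp only [hD] at a1 ⊢; linarith
  · simp only [hD] at a3 ⊢; linarith

/-- The distance of the multiplier symbol from the exact square. -/
noncomputable def eta (p : Pt) (P : ℝ × ℝ × ℝ) : ℝ :=
  |((1 + p.ψ) ^ 2 + 1) * ((P.1 - P.2.2 * P.2.1) + (P.2.2 * P.1 - P.2.1) + P.2.2) -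
    (1 + p.ψ) ^ 2 * (P.1 * P.2.1 - 1 - P.2.2 ^ 2) - p.β * (2 + 2 * p.φ + p.φ ^ 2)| +
  |4 * p.φ * p.β - ((1 + p.ψ) ^ 2 + 1) * (2 * P.2.2 + (P.2.2 * P.1 - P.2.1))| +
  |(1 + p.ψ) ^ 2 * P.2.2 - (P.1 * P.2.1 - 1 - P.2.2 ^ 2) - p.β * (2 * p.φ + 1)| +
  |2 * p.β - (P.1 - P.2.2 * P.2.1)| + |P.2.2 - p.β|

theorem eta_zero (p : Pt) : eta p (p.c1, p.c2, p.β) = 0 := by
  simp only [eta, p.h1, p.h2, p.h0]
  have hφ := p.hφ
  have hψ := p.hψ
  have hy := p.hy
  have m : (1 + p.ψ) ^ 2 = p.φ + 1 + 2 * p.ψ := by linear_combination hψ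
  rw [m, abs_eq_zero.2, abs_eq_zero.2, abs_eq_zero.2, abs_eq_zero.2, abs_eq_zero.2]
  · ring
  · ring
  · ring
  · ring
  · linear_combination (-p.β) * hy
  · linear_combination p.β * hy - 4 * p.β * hψ

theorem no_scalar (p : Pt) : ∀ᶠ P in 𝓝 (p.c1, p.c2, p.β), ∀ K, 0 < K → ∀ x H : ℕ → ℝ,
    (∀ t, x (t + K) = x t) → (∀ t, H (t + K) = H t) →
    (∀ a b, uu P.1 P.2.2 x b * (ww P.2.1 P.2.2 x a - ww P.2.1 P.2.2 x b) ≤ H a - H b) →
    ∀ t, x t = x 0 := by
  obtain ⟨δ, hδ, ev⟩ := Df_lower p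
  have c : Continuous (eta p) := by unfold eta; fun_prop
  have ev2 : ∀ᶠ P in 𝓝 (p.c1, p.c2, p.β), eta p P < δ / 4600 :=
    c.continuousAt.eventually (gt_mem_nhds (by rw [eta_zero]; positivity))
  filter_upwards [ev, ev2] with P hP hη K hK x H hx hH hD
  obtain ⟨c1, c2, β⟩ := P
  simp only at hD
  set D : ℕ → ℕ → ℝ := fun a b => H a - H b - uu c1 β x b * (ww c2 β x a - ww c2 β x b) with hDd
  have D0 : ∀ a b, 0 ≤ D a b := fun a b => sub_nonneg.2 (hD a b)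
  have pU : ∀ t, uu c1 β x (t + K) = uu c1 β x t := fun t => by simp only [uu, hx, per_add hx]
  have pW : ∀ t, ww c2 β x (t + K) = ww c2 β x t := fun t => by simp only [ww, hx, per_add hx]
  have pV : ∀ t, vv p.φ x (t + K) = vv p.φ x t := fun t => by simp only [vv, hx, per_add hx]
  set G : ℕ → ℝ := fun j => vv p.φ x j ^ 2 + 20 * (D j (j + 1) + D (j + 3) j) with hG
  have pG : ∀ t, G (t + K) = G t := fun t => by
    simp only [hG, hDd, pU, pW, pV, hH, per_add pU, per_add pW, per_add hH]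
  have loc : ∀ t, δ * (x (t + 1) - x t) ^ 2 ≤ ∑ j ∈ range 10, G (t + j) := fun t =>
    (hP fun j => x (t + j)).trans (Df_le p.φ (c1, c2, β) (fun j => x (t + j))
      (fun a b => D (t + a) (t + b)) (fun a => H (t + a)) (fun a b => rfl) fun a b => D0 _ _)
  have s1 := sum_le_sum fun t (_ : t ∈ range K) => loc t
  rw [sum_comm, ← mul_sum, energy hx] at s1
  simp only [sum_shift pG, sum_const, card_range, nsmul_eq_mul] at s1
  simp only [hG, sum_add_distrib, ← mul_sum] at s1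
  have d1 : ∑ t ∈ range K, D t (t + 1) = ∑ t ∈ range K, uu c1 β x t * ww c2 β x (t + 0) -
      ∑ t ∈ range K, ww c2 β x t * uu c1 β x (t + 1) := by
    have a := sum_shift hH 1
    have b := sum_shift (F := fun t => uu c1 β x t * ww c2 β x t) (fun t => by rw [pU, pW]) 1
    simp only [hDd, mul_sub, sum_sub_distrib, add_zero, a, b, mul_comm (ww c2 β x _)]
    ring
  have d3 : ∑ t ∈ range K, D (t + 3) t = ∑ t ∈ range K, uu c1 β x t * ww c2 β x (t + 0) -
      ∑ t ∈ range K, uu c1 β x t * ww c2 β x (t + 3) := by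
    have a := sum_shift hH 3
    simp only [hDd, mul_sub, sum_sub_distrib, add_zero, a]
    ring
  have n1 : 0 ≤ ∑ t ∈ range K, D t (t + 1) := sum_nonneg fun _ _ => D0 _ _
  have n3 : 0 ≤ ∑ t ∈ range K, D (t + 3) t := sum_nonneg fun _ _ => D0 _ _
  have nv : 0 ≤ ∑ t ∈ range K, vv p.φ x t ^ 2 := sum_nonneg fun _ _ => sq_nonneg _
  have en : ∀ k, 0 ≤ rr K x 0 - rr K x k := fun k => by
    have := energy hx k
    have : 0 ≤ ∑ t ∈ range K, (x (t + k) - x t) ^ 2 := sum_nonneg fun _ _ => sq_nonneg _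
    linarith
  have u1 := energy_succ hx 1
  have u2 := energy_succ hx 2
  have u3 := energy_succ hx 3
  have u4 := energy_succ hx 4
  simp only [Nat.reduceAdd] at u1 u2 u3 u4
  have aux : ∀ (Δ : ℝ) (k : ℕ), rr K x 0 - rr K x k ≤ 46 * (rr K x 0 - rr K x 1) →
      -Δ * (rr K x 0 - rr K x k) ≤ |Δ| * (46 * (rr K x 0 - rr K x 1)) := fun Δ k h =>
    mul_le_mul (neg_le_abs Δ) h (en k) (abs_nonneg _)
  have key : (1 + p.ψ) ^ 2 * ∑ t ∈ range K, D t (t + 1) + ∑ t ∈ range K, D (t + 3) t +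
      p.β / 2 * ∑ t ∈ range K, vv p.φ x t ^ 2 ≤
      eta p (c1, c2, β) * (46 * (rr K x 0 - rr K x 1)) := by
    simp only [eta, add_mul]
    have e1 := en 1
    refine le_trans (le_of_eq ?_) (add_le_add (add_le_add (add_le_add (add_le_add
      (aux _ 1 (by linarith)) (aux _ 2 (by linarith))) (aux _ 3 (by linarith)))
      (aux _ 4 (by linarith))) (aux _ 5 (by linarith)))
    rw [d1, d3, sum_uw hx, sum_uw hx, sum_wu hx, sum_vv hx]
    simp [Fin.sum_univ_succ, Nat.dist]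
    ring
  have hm : 1 ≤ (1 + p.ψ) ^ 2 := by nlinarith [p.bψ.1]
  have k1 := mul_le_mul_of_nonneg_right hm n1
  have k2 := mul_le_mul_of_nonneg_right (by linarith [p.bβ.1] : 1 / 20 ≤ p.β / 2) nv
  have e0 : rr K x 0 - rr K x 1 = 0 := by
    refine le_antisymm (not_lt.1 fun hpos => ?_) (en 1)
    have := mul_lt_mul_of_pos_right hη hpos
    push_cast at s1
    linarith
  have e1 := energy hx 1
  rw [e0, mul_zero, sum_eq_zero_iff_of_nonneg fun _ _ => sq_nonneg _] at e1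
  have e2 : ∀ t, x (t + 1) = x t := fun t => by
    have := pow_eq_zero_iff two_ne_zero |>.1 (e1 (t % K) (mem_range.2 (Nat.mod_lt _ hK)))
    have per : Function.Periodic x K := hx
    have a := per.nat_mul (t / K) (t % K)
    have b := per.nat_mul (t / K) (t % K + 1)
    simp only [Nat.cast_id] at a b
    rw [add_right_comm] at b
    rw [mul_comm, Nat.mod_add_div] at a b
    linarith
  intro t
  induction t with
  | zero => rfl
  | succ t ih => rw [e2, ih]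

end Pool.Agent.Lib.MP_5a160e_an
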