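import Pool.Agent.Lib.MP_5a160e_an.Local3

/-!
The multiplier inequality, summed over the coordinates: no cycle in dimension at most three near
the critical tuning.
-/

namespace Pool.Agent.Lib.MP_5a160e_an

open Finset Filter Topology

theorem rr_nonneg {K : ℕ} {x : ℕ → ℝ} (hx : ∀ t, x (t + K) = x t) (k : ℕ) :
    0 ≤ rr K x 0 - rr K x k := by
  have := energy hx k
  have : 0 ≤ ∑ t ∈ range K, (x (t + k) - x t) ^ 2 := sum_nonneg fun _ _ => sq_nonneg _
  linarith

theorem key1 (p : Pt) (c1 c2 β : ℝ) {K : ℕ} {x : ℕ → ℝ} (hx : ∀ t, x (t + K) = x t) :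
    (1 + p.ψ) ^ 2 * (∑ t ∈ range K, uu c1 β x t * ww c2 β x (t + 0) -
      ∑ t ∈ range K, ww c2 β x t * uu c1 β x (t + 1)) +
      (∑ t ∈ range K, uu c1 β x t * ww c2 β x (t + 0) -
        ∑ t ∈ range K, uu c1 β x t * ww c2 β x (t + 3)) +
      p.β / 2 * ∑ t ∈ range K, vv p.φ x t ^ 2 ≤
      eta p (c1, c2, β) * (46 * (rr K x 0 - rr K x 1)) := by
  have en := rr_nonneg hx
  have u1 := energy_succ hx 1
  have u2 := energy_succ hx 2
  have u3 := energy_succ hx 3
  have u4 := energy_succ hx 4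
  simp only [Nat.reduceAdd] at u1 u2 u3 u4
  have aux : ∀ (Δ : ℝ) (k : ℕ), rr K x 0 - rr K x k ≤ 46 * (rr K x 0 - rr K x 1) →
      -Δ * (rr K x 0 - rr K x k) ≤ |Δ| * (46 * (rr K x 0 - rr K x 1)) := fun Δ k h =>
    mul_le_mul (neg_le_abs Δ) h (en k) (abs_nonneg _)
  simp only [eta, add_mul]
  have e1 := en 1
  refine le_trans (le_of_eq ?_) (add_le_add (add_le_add (add_le_add (add_le_add
    (aux _ 1 (by linarith)) (aux _ 2 (by linarith))) (aux _ 3 (by linarith)))
    (aux _ 4 (by linarith))) (aux _ 5 (by linarith)))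
  rw [sum_uw hx, sum_uw hx, sum_wu hx, sum_vv hx]
  simp [Fin.sum_univ_succ, Nat.dist]
  ring

theorem const_of_rr {K : ℕ} (hK : 0 < K) {x : ℕ → ℝ} (hx : ∀ t, x (t + K) = x t)
    (e0 : rr K x 0 - rr K x 1 = 0) (t : ℕ) : x t = x 0 := by
  have e1 := energy hx 1
  rw [e0, mul_zero, sum_eq_zero_iff_of_nonneg fun _ _ => sq_nonneg _] at e1
  have e2 : ∀ t, x (t + 1) = x t := fun t => by
    have := pow_eq_zero_iff two_ne_zero |>.1 (e1 (t % K) (mem_range.2 (Nat.mod_lt _ hK)))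
    have per : Function.Periodic x K := hx
    have a := per.nat_mul (t / K) (t % K)
    have b := per.nat_mul (t / K) (t % K + 1)
    simp only [Nat.cast_id] at a b
    rw [add_right_comm] at b
    rw [mul_comm, Nat.mod_add_div] at a b
    linarith
  induction t with
  | zero => rfl
  | succ t ih => rw [e2, ih]

theorem no_space {ι : Type} [Fintype ι] (hι : Fintype.card ι ≤ 3) {p : Pt} (hp : Tight p) :
    ∀ᶠ P in 𝓝 (p.c1, p.c2, p.β), ∀ K, 0 < K → ∀ (x : ι → ℕ → ℝ) (H : ℕ → ℝ),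
      (∀ i t, x i (t + K) = x i t) → (∀ t, H (t + K) = H t) →
      (∀ a b, PP P x b a - PP P x b b ≤ H a - H b) → ∀ i t, x i t = x i 0 := by
  obtain ⟨δ, hδ, ev⟩ := Df3_lower hι hp
  have c : Continuous (eta p) := by unfold eta; fun_prop
  have ev2 : ∀ᶠ P in 𝓝 (p.c1, p.c2, p.β), eta p P < δ / 53521 :=
    c.continuousAt.eventually (gt_mem_nhds (by rw [eta_zero]; positivity))
  filter_upwards [ev, ev2] with P hP hη K hK x H hx hH hD
  obtain ⟨c1, c2, β⟩ := P
  obtain ⟨D, hDd⟩ : ∃ D : ℕ → ℕ → ℝ, ∀ a b,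
      D a b = H a - H b - PP (c1, c2, β) x b a + PP (c1, c2, β) x b b := ⟨_, fun _ _ => rfl⟩
  have D0 : ∀ a b, 0 ≤ D a b := fun a b => by rw [hDd]; linarith [hD a b]
  have pU : ∀ i t, uu c1 β (x i) (t + K) = uu c1 β (x i) t := fun i t => by
    simp only [uu, hx i, per_add (hx i)]
  have pW : ∀ i t, ww c2 β (x i) (t + K) = ww c2 β (x i) t := fun i t => by
    simp only [ww, hx i, per_add (hx i)]
  have pV : ∀ i t, vv p.φ (x i) (t + K) = vv p.φ (x i) t := fun i t => by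
    simp only [vv, hx i, per_add (hx i)]
  have pP : ∀ s t, PP (c1, c2, β) x (s + K) (t + K) = PP (c1, c2, β) x s t := fun s t => by
    simp only [PP, pU, pW]
  have pD : ∀ s t, D (s + K) (t + K) = D s t := fun s t => by simp only [hDd, pP, hH]
  obtain ⟨G, hG⟩ : ∃ G : ℕ → ℝ, ∀ j,
      G j = ∑ i, vv p.φ (x i) j ^ 2 + 179 * (D j (j + 1) + D (j + 3) j) := ⟨_, fun _ => rfl⟩
  have pG : ∀ t, G (t + K) = G t := fun t => by
    rw [hG, hG, add_right_comm t K 1, add_right_comm t K 3, pD, pD]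
    simp only [pV]
  have loc : ∀ t, δ * ∑ i, (x i (t + 1) - x i t) ^ 2 ≤ ∑ j ∈ range 13, G (t + j) := fun t => by
    simp only [hG]
    exact (hP fun i j => x i (t + j)).trans (Df3_le p.φ (c1, c2, β) (fun i j => x i (t + j))
      (fun a b => D (t + a) (t + b)) (fun a => H (t + a)) (fun a b => hDd _ _) fun a b => D0 _ _)
  obtain ⟨En, hE⟩ : ∃ En, En = ∑ i, (rr K (x i) 0 - rr K (x i) 1) := ⟨_, rfl⟩
  have s1 := sum_le_sum fun t (_ : t ∈ range K) => loc t
  rw [sum_comm (s := range K) (t := range 13), ← mul_sum, sum_comm,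
    sum_congr rfl fun i _ => energy (hx i) 1, ← mul_sum, ← hE] at s1
  simp only [sum_shift pG, sum_const, card_range, nsmul_eq_mul] at s1
  simp only [hG, sum_add_distrib, ← mul_sum] at s1
  have d1 : ∑ t ∈ range K, D t (t + 1) =
      ∑ i, (∑ t ∈ range K, uu c1 β (x i) t * ww c2 β (x i) (t + 0) -
        ∑ t ∈ range K, ww c2 β (x i) t * uu c1 β (x i) (t + 1)) := by
    have a := sum_shift hH 1
    have b := sum_shift (F := fun t => PP (c1, c2, β) x t t) (fun t => pP t t) 1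
    simp only [hDd, sum_add_distrib, sum_sub_distrib, a, b, add_zero]
    simp only [PP]
    rw [sum_comm (s := range K), sum_comm (s := range K)]
    simp only [mul_comm (ww c2 β _ _)]
    ring
  have d3 : ∑ t ∈ range K, D (t + 3) t =
      ∑ i, (∑ t ∈ range K, uu c1 β (x i) t * ww c2 β (x i) (t + 0) -
        ∑ t ∈ range K, uu c1 β (x i) t * ww c2 β (x i) (t + 3)) := by
    have a := sum_shift hH 3
    simp only [hDd, sum_add_distrib, sum_sub_distrib, a, add_zero]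
    simp only [PP]
    rw [sum_comm (s := range K), sum_comm (s := range K)]
    ring
  have n1 : 0 ≤ ∑ t ∈ range K, D t (t + 1) := sum_nonneg fun _ _ => D0 _ _
  have n3 : 0 ≤ ∑ t ∈ range K, D (t + 3) t := sum_nonneg fun _ _ => D0 _ _
  have nv : 0 ≤ ∑ t ∈ range K, ∑ i, vv p.φ (x i) t ^ 2 := by positivity
  have key : (1 + p.ψ) ^ 2 * ∑ t ∈ range K, D t (t + 1) + ∑ t ∈ range K, D (t + 3) t +
      p.β / 2 * ∑ t ∈ range K, ∑ i, vv p.φ (x i) t ^ 2 ≤ eta p (c1, c2, β) * (46 * En) := by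
    rw [d1, d3, sum_comm (s := range K), hE, mul_sum, mul_sum, mul_sum, mul_sum, ← sum_add_distrib,
      ← sum_add_distrib]
    exact sum_le_sum fun i _ => key1 p c1 c2 β (hx i)
  have hm : 1 ≤ (1 + p.ψ) ^ 2 := by nlinarith [p.bψ.1]
  have k1 := mul_le_mul_of_nonneg_right hm n1
  have k2 := mul_le_mul_of_nonneg_right (by linarith [p.bβ.1] : 1 / 179 ≤ p.β / 2) nv
  have e0 : En = 0 := by
    refine le_antisymm (not_lt.1 fun hpos => ?_)
      (hE ▸ sum_nonneg fun i _ => rr_nonneg (hx i) 1)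
    have := mul_lt_mul_of_pos_right hη hpos
    push_cast at s1
    linarith
  rw [hE, sum_eq_zero_iff_of_nonneg fun i _ => rr_nonneg (hx i) 1] at e0
  exact fun i t => const_of_rr hK (hx i) (e0 i (mem_univ i)) t

end Pool.Agent.Lib.MP_5a160e_an
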