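import Pool.Agent.Lib.MP_5a160e_an.GramA

/-!
Rigidity in dimension at most three at the critical tuning.
-/

namespace Pool.Agent.Lib.MP_5a160e_an

open Finset

/-- The products of the two sequences, summed over the coordinates. -/
def PP {ι : Type} [Fintype ι] (P : ℝ × ℝ × ℝ) (X : ι → ℕ → ℝ) (s t : ℕ) : ℝ :=
  ∑ i, uu P.1 P.2.2 (X i) s * ww P.2.1 P.2.2 (X i) t

theorem rigid3 {ι : Type} [Fintype ι] (hι : Fintype.card ι ≤ 3) {p : Pt} (hp : Tight p)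
    {X : ι → ℕ → ℝ} (h : ∀ i, Rec p.φ (X i))
    (hD : ∀ a ≤ 12, ∀ b ≤ 12, 0 ≤ Dh (PP (p.c1, p.c2, p.β) X) a b)
    (hE : ∀ j < 10, Dh (PP (p.c1, p.c2, p.β) X) (j + 3) j ≤ 0) (i : ι) (j : ℕ) : X i j = 0 := by
  classical
  obtain ⟨T, eT⟩ : ∃ T, T = gr X 0 0 + gr X 1 1 + gr X 2 2 + gr X 3 3 := ⟨_, rfl⟩
  have g0 : ∀ k, 0 ≤ gr X k k := fun k => sum_nonneg fun _ _ => mul_self_nonneg _
  have hT : 0 ≤ T := by linarith [g0 0, g0 1, g0 2, g0 3]
  have near : ∀ s t, |PP (p.c1, p.c2, p.β) X s t - (fun s t => ∑ i, Qt (X i) s t) s t| ≤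
      1 / 25000 * T := fun s t => by
    simp only [PP]
    rw [← sum_sub_distrib]
    refine (abs_sum_le_sum_abs _ _).trans ((sum_le_sum fun i _ => uw_near hp (h i) s t).trans ?_)
    rw [← mul_sum, eT]
    simp only [gr, sum_add_distrib, le_refl]
  have lo : ∀ a ≤ 12, ∀ b ≤ 12, -(T / 500) ≤ ∑ i, Dh (Qt (X i)) a b := fun a ha b hb => by
    have := abs_le.1 (Dh_near near ha hb)
    rw [Dh_sum fun i => Qt (X i)] at this
    linarith [hD a ha b hb]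
  have hi : ∀ j < 10, ∑ i, Dh (Qt (X i)) (j + 3) j ≤ T / 500 := fun j hj => by
    have := abs_le.1 (Dh_near near (a := j + 3) (b := j) (by omega) (by omega))
    rw [Dh_sum fun i => Qt (X i)] at this
    linarith [hE j hj]
  have m3_0 := hi 0 (by norm_num)
  have p3_0 := lo 3 (by norm_num) 0 (by norm_num)
  have m4_1 := hi 1 (by norm_num)
  have p4_1 := lo 4 (by norm_num) 1 (by norm_num)
  have m5_2 := hi 2 (by norm_num)
  have p5_2 := lo 5 (by norm_num) 2 (by norm_num)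
  have m6_3 := hi 3 (by norm_num)
  have p6_3 := lo 6 (by norm_num) 3 (by norm_num)
  have m9_6 := hi 6 (by norm_num)
  have p9_6 := lo 9 (by norm_num) 6 (by norm_num)
  have m10_7 := hi 7 (by norm_num)
  have p10_7 := lo 10 (by norm_num) 7 (by norm_num)
  have p1_0 := lo 1 (by norm_num) 0 (by norm_num)
  have p1_5 := lo 1 (by norm_num) 5 (by norm_num)
  have p1_6 := lo 1 (by norm_num) 6 (by norm_num)
  have p2_6 := lo 2 (by norm_num) 6 (by norm_num)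
  have p2_7 := lo 2 (by norm_num) 7 (by norm_num)
  have p3_2 := lo 3 (by norm_num) 2 (by norm_num)
  have p3_7 := lo 3 (by norm_num) 7 (by norm_num)
  have p4_3 := lo 4 (by norm_num) 3 (by norm_num)
  have p4_8 := lo 4 (by norm_num) 8 (by norm_num)
  have p5_4 := lo 5 (by norm_num) 4 (by norm_num)
  have p7_11 := lo 7 (by norm_num) 11 (by norm_num)
  simp only [Nat.reduceAdd, ev_3_0, ev_4_1, ev_5_2, ev_6_3, ev_9_6, ev_10_7, ev_1_0, ev_1_5,
    ev_1_6, ev_2_6, ev_2_7, ev_3_2, ev_3_7, ev_4_3, ev_4_8, ev_5_4, ev_7_11, qf_sum]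
    at m3_0 p3_0 m4_1 p4_1 m5_2 p5_2 m6_3 p6_3 m9_6 p9_6 m10_7 p10_7 p1_0 p1_5 p1_6 p2_6 p2_7 p3_2
       p3_7 p4_3 p4_8 p5_4 p7_11
  have l0 := lp0 eT hT m3_0 p3_0 m4_1 p4_1 m5_2 p5_2 m6_3 p6_3 m9_6 p9_6 m10_7 p10_7 p1_0 p1_5
    p1_6 p2_6 p2_7 p3_2 p3_7 p4_3 p4_8 p5_4 p7_11
  have l1 := lp1 eT hT m3_0 p3_0 m4_1 p4_1 m5_2 p5_2 m6_3 p6_3 m9_6 p9_6 m10_7 p10_7 p1_0 p1_5
    p1_6 p2_6 p2_7 p3_2 p3_7 p4_3 p4_8 p5_4 p7_11
  have l2 := lp2 eT hT m3_0 p3_0 m4_1 p4_1 m5_2 p5_2 m6_3 p6_3 m9_6 p9_6 m10_7 p10_7 p1_0 p1_5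
    p1_6 p2_6 p2_7 p3_2 p3_7 p4_3 p4_8 p5_4 p7_11
  have l3 := lp3 eT hT m3_0 p3_0 m4_1 p4_1 m5_2 p5_2 m6_3 p6_3 m9_6 p9_6 m10_7 p10_7 p1_0 p1_5
    p1_6 p2_6 p2_7 p3_2 p3_7 p4_3 p4_8 p5_4 p7_11
  have T0 : T = 0 := by
    refine le_antisymm (not_lt.1 fun hpos => ?_) hT
    let Y : Matrix ι (Fin 4) ℝ := Matrix.of fun i k => yy (X i) k
    have hG : ∀ k l, (Y.transpose * Y) k l = ∑ i, yy (X i) k * yy (X i) l := fun k l => rfl
    have hdet : (Y.transpose * Y).det ≠ 0 := by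
      refine det_ne_zero_of_sum_row_lt_diag fun k => ?_
      rw [sum_erase_eq_sub (mem_univ k), Fin.sum_univ_four]
      simp only [Real.norm_eq_abs, hG]
      match k with
      | 0 =>
        simp only [yy_00, yy_01, yy_02, yy_03, qf_sum]
        exact dom0 l0 hpos
      | 1 =>
        simp only [yy_10, yy_11, yy_12, yy_13, qf_sum]
        exact dom1 l1 hpos
      | 2 =>
        simp only [yy_20, yy_21, yy_22, yy_23, qf_sum]
        exact dom2 l2 hpos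
      | 3 =>
        simp only [yy_30, yy_31, yy_32, yy_33, qf_sum]
        exact dom3 l3 hpos
    have r1 := Matrix.rank_of_isUnit _ ((Matrix.isUnit_iff_isUnit_det _).2 hdet.isUnit)
    have r2 := (Matrix.rank_mul_le_right Y.transpose Y).trans (Matrix.rank_le_card_height Y)
    rw [r1, Fintype.card_fin] at r2
    omega
  have z : ∀ k, gr X k k ≤ 0 → X i k = 0 := fun k hk =>
    mul_self_eq_zero.1 ((sum_eq_zero_iff_of_nonneg fun _ _ => mul_self_nonneg _).1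
      (le_antisymm hk (g0 k)) i (mem_univ i))
  exact (h i).zero (z 0 (by linarith only [T0, eT, g0 1, g0 2, g0 3]))
    (z 1 (by linarith only [T0, eT, g0 0, g0 2, g0 3]))
    (z 2 (by linarith only [T0, eT, g0 0, g0 1, g0 3]))
    (z 3 (by linarith only [T0, eT, g0 0, g0 1, g0 2])) j

end Pool.Agent.Lib.MP_5a160e_an
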