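import Pool.Agent.Lib.MP_5a160e_an.Dual3

/-!
The interpolation inequality in any dimension, and the transfer of cycles.
-/

namespace Pool.Agent.Lib.MP_5a160e_an

open InnerProductSpace Finset

variable {E : Type} [NormedAddCommGroup E] [InnerProductSpace ℝ E] [CompleteSpace E]

theorem line_deriv {f : E → ℝ} (hd : Differentiable ℝ f) (a v : E) (t : ℝ) :
    HasDerivAt (fun t : ℝ => f (a + t • v)) ⟪gradient f (a + t • v), v⟫_ℝ t := by
  have h1 : HasDerivAt (fun t : ℝ => a + t • v) v t := by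
    simpa using ((hasDerivAt_id t).smul_const v).const_add a
  exact (hd (a + t • v)).hasGradientAt.hasFDerivAt.comp_hasDerivAt t h1

theorem descent {L : ℝ} {f : E → ℝ} (hd : Differentiable ℝ f)
    (hl : ∀ x y, ‖gradient f x - gradient f y‖ ≤ L * ‖x - y‖) (a v : E) :
    f (a + v) ≤ f a + ⟪gradient f a, v⟫_ℝ + L / 2 * ‖v‖ ^ 2 := by
  have d : ∀ t : ℝ, HasDerivAt
      (fun t : ℝ => f (a + t • v) - ⟪gradient f a, v⟫_ℝ * t - L / 2 * ‖v‖ ^ 2 * t ^ 2)
      (⟪gradient f (a + t • v), v⟫_ℝ - ⟪gradient f a, v⟫_ℝ - L * ‖v‖ ^ 2 * t) t := fun t => by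
    have := ((line_deriv hd a v t).sub ((hasDerivAt_id t).const_mul ⟪gradient f a, v⟫_ℝ)).sub
      ((hasDerivAt_pow 2 t).const_mul (L / 2 * ‖v‖ ^ 2))
    refine HasDerivAt.congr_deriv this ?_
    simp; ring
  have anti := antitoneOn_of_deriv_nonpos (convex_Icc (0 : ℝ) 1)
    (fun t _ => (d t).continuousAt.continuousWithinAt)
    (fun t _ => (d t).differentiableAt.differentiableWithinAt) fun t ht => by
      rw [interior_Icc] at ht
      rw [(d t).deriv]
      have h1 := hl (a + t • v) a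
      rw [add_sub_cancel_left, norm_smul, Real.norm_of_nonneg ht.1.le] at h1
      have h2 := real_inner_le_norm (gradient f (a + t • v) - gradient f a) v
      rw [inner_sub_left] at h2
      have h3 := mul_le_mul_of_nonneg_right h1 (norm_nonneg v)
      linarith
  have := anti (Set.left_mem_Icc.2 zero_le_one) (Set.right_mem_Icc.2 zero_le_one) zero_le_one
  simp only [one_smul, zero_smul, add_zero] at this
  linarith

theorem tangent {μ : ℝ} {f : E → ℝ} (hd : Differentiable ℝ f) (hc : StrongConvexOn Set.univ μ f)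
    (b v : E) : f b + ⟪gradient f b, v⟫_ℝ + μ / 2 * ‖v‖ ^ 2 ≤ f (b + v) := by
  rw [strongConvexOn_iff_convex] at hc
  have e : ∀ t : ℝ, ‖b + t • v‖ ^ 2 = ‖b‖ ^ 2 + 2 * ⟪b, v⟫_ℝ * t + ‖v‖ ^ 2 * t ^ 2 := fun t => by
    rw [norm_add_sq_real, real_inner_smul_right, norm_smul, mul_pow, Real.norm_eq_abs, sq_abs]
    ring
  have cv : ConvexOn ℝ Set.univ fun t : ℝ =>
      f (b + t • v) - μ / 2 * (‖b‖ ^ 2 + 2 * ⟪b, v⟫_ℝ * t + ‖v‖ ^ 2 * t ^ 2) := by
    refine ⟨convex_univ, fun s _ t _ α β hα hβ h => ?_⟩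
    have := hc.2 (Set.mem_univ (b + s • v)) (Set.mem_univ (b + t • v)) hα hβ h
    have e2 : α • (b + s • v) + β • (b + t • v) = b + (α • s + β • t) • v := by
      rw [smul_add, smul_add, add_add_add_comm, ← add_smul, h, one_smul, smul_smul, smul_smul,
        ← add_smul, smul_eq_mul, smul_eq_mul]
    simpa only [e2, e] using this
  have d : HasDerivAt (fun t : ℝ =>
      f (b + t • v) - μ / 2 * (‖b‖ ^ 2 + 2 * ⟪b, v⟫_ℝ * t + ‖v‖ ^ 2 * t ^ 2))
      (⟪gradient f b, v⟫_ℝ - μ * ⟪b, v⟫_ℝ) 0 := by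
    have := (line_deriv hd b v 0).sub (((((hasDerivAt_id (0 : ℝ)).const_mul
      (2 * ⟪b, v⟫_ℝ)).const_add (‖b‖ ^ 2)).add
      ((hasDerivAt_pow 2 (0 : ℝ)).const_mul (‖v‖ ^ 2))).const_mul (μ / 2))
    refine HasDerivAt.congr_deriv this ?_
    simp; ring
  have := tangent_le cv d 1
  simp only [one_smul, zero_smul, add_zero] at this
  linarith

/-- The interpolation inequality, in potential form. -/
theorem interpE {μ L : ℝ} (hL : μ < L) {f : E → ℝ} (hf : InClass E μ L f) :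
    ∃ H : E → ℝ, ∀ a b, ⟪gradient f b - μ • b, L • a - gradient f a⟫_ℝ -
      ⟪gradient f b - μ • b, L • b - gradient f b⟫_ℝ ≤ H a - H b := by
  obtain ⟨hd, hc, hl⟩ := hf
  refine ⟨fun x => (L - μ) * (f x - μ / 2 * ‖x‖ ^ 2) - ‖gradient f x - μ • x‖ ^ 2 / 2,
    fun a b => ?_⟩
  have hl0 : 0 < L - μ := by linarith
  obtain ⟨u, hu⟩ : ∃ u : E, gradient f b = u + μ • b := ⟨gradient f b - μ • b, by abel⟩
  obtain ⟨s, hs⟩ : ∃ s : E, gradient f a = (L - μ) • s + u + μ • a :=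
    ⟨(L - μ)⁻¹ • (gradient f a - μ • a - u), by
      rw [smul_smul, mul_inv_cancel₀ hl0.ne', one_smul]; abel⟩
  have t1 := tangent hd hc b (a - s - b)
  have t2 := descent hd hl a (-s)
  rw [show b + (a - s - b) = a + -s by abel] at t1
  have t3 := mul_le_mul_of_nonneg_left (t1.trans t2) hl0.le
  simp only [hu, hs, add_sub_cancel_right] at t3 ⊢
  simp only [← real_inner_self_eq_norm_sq, inner_add_left, inner_add_right, inner_sub_left,
    inner_sub_right, inner_neg_left, inner_neg_right, real_inner_smul_left, real_inner_smul_right,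
    real_inner_comm a b, real_inner_comm a s, real_inner_comm a u, real_inner_comm b s,
    real_inner_comm b u, real_inner_comm s u] at t3 ⊢
  linarith

theorem no_cycle_of3 {d : ℕ} {μ L γ β : ℝ} (hL : μ < L)
    (h : ∀ K, 0 < K → ∀ (x : Fin d → ℕ → ℝ) (H : ℕ → ℝ),
      (∀ i t, x i (t + K) = x i t) → (∀ t, H (t + K) = H t) →
      (∀ a b, PP (1 + β - γ * μ, γ * L - 1 - β, β) x b a -
        PP (1 + β - γ * μ, γ * L - 1 - β, β) x b b ≤ H a - H b) → ∀ i t, x i t = x i 0) :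
    ¬ HasCycle (EuclideanSpace ℝ (Fin d)) μ L γ β := by
  rintro ⟨K, hK, x, hx, ⟨s, t, hst⟩, f, hf, hb⟩
  obtain ⟨H, hH⟩ := interpE hL hf
  have e : ∀ a b, PP (1 + β - γ * μ, γ * L - 1 - β, β) (fun i t => x t i) b a =
      γ ^ 2 * ⟪gradient f (x (b + 1)) - μ • x (b + 1), L • x (a + 1) - gradient f (x (a + 1))⟫_ℝ :=
    fun a b => by
      rw [PiLp.inner_apply, mul_sum]
      refine sum_congr rfl fun i _ => ?_
      simp only [uu, ww, hb, PiLp.sub_apply, PiLp.add_apply, PiLp.smul_apply, smul_eq_mul,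
        RCLike.inner_apply, conj_trivial]
      ring
  have := h K (by omega) (fun i t => x t i) (fun t => γ ^ 2 * H (x (t + 1)))
    (fun i t => by rw [hx]) (fun t => by rw [add_right_comm, hx]) fun a b => by
      rw [e, e, ← mul_sub, ← mul_sub]
      exact mul_le_mul_of_nonneg_left (hH _ _) (sq_nonneg γ)
  exact hst (PiLp.ext fun i => (this i s).trans (this i t).symm)

theorem lift_gen {μ L γ β : ℝ} (hγ : 0 < γ) (hμ : 0 ≤ μ) (hL : μ < L) {X : ℕ → E}
    (hX : ∀ t, X (t + 10) = X t) (hne : X 0 ≠ X 1)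
    (h : ∀ s t, ⟪(γ * L - 1 - β) • X (t + 1) + X (t + 2) + β • X t,
      ((1 + β - γ * μ) • X (s + 1) - X (s + 2) - β • X s) -
        ((1 + β - γ * μ) • X (t + 1) - X (t + 2) - β • X t)⟫_ℝ ≤ 0) : HasCycle E μ L γ β := by
  have hl : 0 < γ * (L - μ) := mul_pos hγ (by linarith)
  obtain ⟨r, hr, hr0⟩ : ∃ r : ℝ, r * (γ * (L - μ)) = 1 ∧ 0 < r :=
    ⟨(γ * (L - μ))⁻¹, inv_mul_cancel₀ hl.ne', inv_pos.2 hl⟩
  obtain ⟨p, hp⟩ : ∃ p : ℕ → E, ∀ t,
      p t = r • ((1 + β - γ * μ) • X (t + 1) - X (t + 2) - β • X t) := ⟨_, fun _ => rfl⟩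
  set C : Set E := {c | ∀ t, ⟪X (t + 1) - p t, c - p t⟫_ℝ ≤ 0} with hC
  have e1 : ∀ t, X (t + 1) - p t = r • ((γ * L - 1 - β) • X (t + 1) + X (t + 2) + β • X t) := by
    intro t
    rw [hp]
    linear_combination (norm := module) -hr • X (t + 1)
  have mem : ∀ s, p s ∈ C := by
    intro s t
    rw [e1, hp, hp, ← smul_sub, real_inner_smul_left, real_inner_smul_right]
    exact mul_nonpos_of_nonneg_of_nonpos hr0.le (mul_nonpos_of_nonneg_of_nonpos hr0.le (h s t))
  have cl : IsClosed C := by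
    simp only [hC, Set.ofPred_forall]
    exact isClosed_iInter fun t => isClosed_le (by fun_prop) continuous_const
  have cv : Convex ℝ C := by
    intro a ha b hb s t hs ht hst k
    have e : s • a + t • b - p k = s • (a - p k) + t • (b - p k) := by
      rw [smul_sub, smul_sub, sub_add_sub_comm, ← add_smul, hst, one_smul]
    rw [e, inner_add_right, real_inner_smul_right, real_inner_smul_right]
    exact add_nonpos (mul_nonpos_of_nonneg_of_nonpos hs (ha k))
      (mul_nonpos_of_nonneg_of_nonpos ht (hb k))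
  obtain ⟨f, hf, hg⟩ := exists_inClass ⟨_, mem 0⟩ cl cv hμ hL.le
  refine ⟨10, by norm_num, X, hX, ⟨0, 1, hne⟩, f, hf, fun t => ?_⟩
  rw [hg _ _ (mem t) fun c hc => hc t, hp]
  linear_combination (norm := module) hr • ((1 + β - γ * μ) • X (t + 1) - X (t + 2) - β • X t)

end Pool.Agent.Lib.MP_5a160e_an
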