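import Pool.Agent.Lib.MP_5a160e_an.Rigid

/-!
Rigidity on a window and its quantitative form near the critical tuning.
-/

namespace Pool.Agent.Lib.MP_5a160e_an

open Finset Filter Topology

theorem top_lemma {ι : Type} [Fintype ι] [Nonempty ι] (U W : ι → ℝ) (σ τ : ι ≃ ι)
    (h0 : ∀ a b, 0 ≤ (U a - U b) * (W a - W b))
    (h1 : ∀ a b, 0 ≤ (U a - U b) * (W (σ a) - W (σ b)))
    (h2 : ∀ a b, 0 ≤ (U a - U b) * (W (τ a) - W (τ b))) :
    (∃ i, ∀ k, W k ≤ W i ∧ W k ≤ W (σ i) ∧ W k ≤ W (τ i)) ∨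
    (∃ j, ∀ k, U k ≤ U j ∧ U k ≤ U (σ.symm j) ∧ U k ≤ U (τ.symm j)) := by
  classical
  set C := univ.filter fun i => ∀ k, U k ≤ U i with hC
  set D : (ι ≃ ι) → Finset ι := fun ρ => univ.filter fun i => ∀ k, W k ≤ W (ρ i) with hD
  have card : ∀ ρ, (D ρ).card = (D (Equiv.refl ι)).card := fun ρ =>
    card_equiv ρ (by simp [hD])
  have nest : ∀ ρ : ι ≃ ι, (∀ a b, 0 ≤ (U a - U b) * (W (ρ a) - W (ρ b))) →
      C ⊆ D ρ ∨ D ρ ⊆ C := by
    intro ρ h
    by_contra hn
    simp only [not_or, not_subset, hC, hD, mem_filter, mem_univ, true_and, not_forall,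
      not_le] at hn
    obtain ⟨⟨a, ha, k, hk⟩, b, hb, l, hl⟩ := hn
    have := h a b
    have e1 : 0 < U a - U b := by linarith [ha l]
    have e2 : 0 < W (ρ b) - W (ρ a) := by linarith [hb k]
    linarith [mul_pos e1 e2]
  rcases le_total C.card (D (Equiv.refl ι)).card with hle | hle
  · have sub : ∀ ρ : ι ≃ ι, (∀ a b, 0 ≤ (U a - U b) * (W (ρ a) - W (ρ b))) → C ⊆ D ρ := by
      intro ρ h
      rcases nest ρ h with h | h
      · exact h
      · exact (eq_of_subset_of_card_le h (by rw [card]; exact hle)).ge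
    obtain ⟨i, hi⟩ := Finite.exists_max U
    have hi' : i ∈ C := by simpa [hC] using hi
    have a0 := sub (Equiv.refl ι) h0 hi'
    have a1 := sub σ h1 hi'
    have a2 := sub τ h2 hi'
    simp only [hD, mem_filter, mem_univ, true_and, Equiv.refl_apply] at a0 a1 a2
    exact Or.inl ⟨i, fun k => ⟨a0 k, a1 k, a2 k⟩⟩
  · have sub : ∀ ρ : ι ≃ ι, (∀ a b, 0 ≤ (U a - U b) * (W (ρ a) - W (ρ b))) → D ρ ⊆ C := by
      intro ρ h
      rcases nest ρ h with h | h
      · exact (eq_of_subset_of_card_le h (by rw [card]; exact hle)).ge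
      · exact h
    obtain ⟨j, hj⟩ := Finite.exists_max W
    have a0 := sub (Equiv.refl ι) h0 (x := j) (by simpa [hD] using hj)
    have a1 := sub σ h1 (x := σ.symm j) (by simpa [hD] using hj)
    have a2 := sub τ h2 (x := τ.symm j) (by simpa [hD] using hj)
    simp only [hC, mem_filter, mem_univ, true_and] at a0 a1 a2
    exact Or.inr ⟨j, fun k => ⟨a0 k, a1 k, a2 k⟩⟩

theorem per_mod {f : ℕ → ℝ} (h : ∀ j, f (j + 10) = f j) (a c : ℕ) : f (a % 10 + c) = f (a + c) := by
  have : Function.Periodic f 10 := h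
  have e : a + c = a % 10 + c + (a / 10) * 10 := by omega
  rw [e]; exact (this.nat_mul (a / 10) _).symm

theorem rigid (p : Pt) {X : ℕ → ℝ} (h : Rec p.φ X)
    (m0 : ∀ a < 10, ∀ b < 10,
      0 ≤ (uu p.c1 p.β X a - uu p.c1 p.β X b) * (ww p.c2 p.β X a - ww p.c2 p.β X b))
    (m1 : ∀ a < 10, ∀ b < 10,
      0 ≤ (uu p.c1 p.β X (a + 1) - uu p.c1 p.β X (b + 1)) * (ww p.c2 p.β X a - ww p.c2 p.β X b))
    (m3 : ∀ a < 10, ∀ b < 10,
      0 ≤ (uu p.c1 p.β X a - uu p.c1 p.β X b) * (ww p.c2 p.β X (a + 3) - ww p.c2 p.β X (b + 3)))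
    (j : ℕ) : X j = 0 := by
  have pU := (h.uu p.c1 p.β).per p.hφ
  have pW := (h.ww p.c2 p.β).per p.hφ
  have qU := per_mod pU
  have qW := per_mod pW
  have qU0 : ∀ a, uu p.c1 p.β X (a % 10) = uu p.c1 p.β X a := fun a => qU a 0
  have qW0 : ∀ a, ww p.c2 p.β X (a % 10) = ww p.c2 p.β X a := fun a => qW a 0
  have lt : ∀ a, a % 10 < 10 := fun a => Nat.mod_lt _ (by norm_num)
  have n0 : ∀ a b,
      0 ≤ (uu p.c1 p.β X a - uu p.c1 p.β X b) * (ww p.c2 p.β X a - ww p.c2 p.β X b) := by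
    intro a b
    simpa only [qU0, qW0] using m0 _ (lt a) _ (lt b)
  have back : ∀ i, (∀ j, X (i + j) = 0) → X j = 0 := by
    intro i hi
    have : Function.Periodic X 10 := h.per p.hφ
    rw [← this.nat_mul i j]
    have := hi (j + 9 * i)
    rw [← this]; congr 1; simp only [Nat.cast_id]; ring
  rcases top_lemma (fun i : Fin 10 => uu p.c1 p.β X i) (fun i => ww p.c2 p.β X i)
    (Equiv.addRight 9) (Equiv.addRight 3) (fun a b => n0 a b)
    (fun a b => by
      have := m1 _ (lt (a + 9)) _ (lt (b + 9))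
      simp only [qU, add_assoc, Nat.reduceAdd, pU] at this
      simp only [Equiv.coe_addRight, Fin.val_add]
      exact this)
    (fun a b => by
      have := m3 _ a.2 _ b.2
      rw [← qW0 (a + 3), ← qW0 (b + 3)] at this
      simp only [Equiv.coe_addRight, Fin.val_add]
      exact this) with ⟨i, hi⟩ | ⟨i, hi⟩
  · have hi' : ∀ k : ℕ, ww p.c2 p.β X k ≤ ww p.c2 p.β X i ∧
        ww p.c2 p.β X k ≤ ww p.c2 p.β X (i + 9) ∧ ww p.c2 p.β X k ≤ ww p.c2 p.β X (i + 3) := by
      intro k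
      have := hi ⟨k % 10, lt k⟩
      rw [← qW0 (i + 9), ← qW0 (i + 3), ← qW0 k]
      simp only [Equiv.coe_addRight, Fin.val_add] at this
      exact this
    refine back (i + 9) (topW p (h.shift (i + 9)) (fun a b => n0 (i + 9 + a) (i + 9 + b))
      (fun k => (hi' (i + 9 + k)).2.1) (fun k => ?_) (fun k => ?_))
    · exact ((hi' (i + 9 + k)).1).trans_eq (pW i).symm
    · exact ((hi' (i + 9 + k)).2.2).trans_eq (pW (i + 3)).symm
  · have hi' : ∀ k : ℕ, uu p.c1 p.β X k ≤ uu p.c1 p.β X i ∧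
        uu p.c1 p.β X k ≤ uu p.c1 p.β X (i + 1) ∧ uu p.c1 p.β X k ≤ uu p.c1 p.β X (i + 7) := by
      intro k
      have := hi ⟨k % 10, lt k⟩
      rw [← qU0 (i + 1), ← qU0 (i + 7), ← qU0 k]
      have e1 : -(9 : Fin 10) = 1 := by decide
      have e2 : -(3 : Fin 10) = 7 := by decide
      simp only [Equiv.addRight_symm, Equiv.coe_addRight, e1, e2, Fin.val_add] at this
      exact this
    refine back (i + 7) (topU p (h.shift (i + 7)) (fun a b => n0 (i + 7 + a) (i + 7 + b))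
      (fun k => (hi' (i + 7 + k)).2.2) (fun k => ?_) (fun k => ?_))
    · exact ((hi' (i + 7 + k)).1).trans_eq (pU i).symm
    · exact ((hi' (i + 7 + k)).2.1).trans_eq (pU (i + 1)).symm

/-- The solution of the recurrence with given first four values. -/
def ext (φ : ℝ) (a : ℕ → ℝ) : ℕ → ℝ
  | 0 => a 0
  | 1 => a 1
  | 2 => a 2
  | 3 => a 3
  | j + 4 => -φ * ext φ a (j + 2) - ext φ a j

/-- The local defect of a sequence on a window of length fifteen. -/
noncomputable def Df (φ : ℝ) (P : ℝ × ℝ × ℝ) (x : ℕ → ℝ) : ℝ :=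
  ∑ j ∈ range 10, vv φ x j ^ 2 + ∑ a ∈ range 10, ∑ b ∈ range 10,
    (max 0 (-((uu P.1 P.2.2 x a - uu P.1 P.2.2 x b) * (ww P.2.1 P.2.2 x a - ww P.2.1 P.2.2 x b))) +
    max 0 (-((uu P.1 P.2.2 x (a + 1) - uu P.1 P.2.2 x (b + 1)) *
      (ww P.2.1 P.2.2 x a - ww P.2.1 P.2.2 x b))) +
    max 0 (-((uu P.1 P.2.2 x a - uu P.1 P.2.2 x b) *
      (ww P.2.1 P.2.2 x (a + 3) - ww P.2.1 P.2.2 x (b + 3)))))

theorem uu_aff {x z : ℕ → ℝ} {s c : ℝ} (h : ∀ j < 15, x j = s * z j + c) (c1 β : ℝ) {a b : ℕ}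
    (ha : a < 13) (hb : b < 13) : uu c1 β x a - uu c1 β x b = s * (uu c1 β z a - uu c1 β z b) := by
  simp only [uu]
  rw [h a (by omega), h b (by omega), h (a + 1) (by omega), h (b + 1) (by omega),
    h (a + 2) (by omega), h (b + 2) (by omega)]
  ring

theorem ww_aff {x z : ℕ → ℝ} {s c : ℝ} (h : ∀ j < 15, x j = s * z j + c) (c1 β : ℝ) {a b : ℕ}
    (ha : a < 13) (hb : b < 13) : ww c1 β x a - ww c1 β x b = s * (ww c1 β z a - ww c1 β z b) := by
  simp only [ww]
  rw [h a (by omega), h b (by omega), h (a + 1) (by omega), h (b + 1) (by omega),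
    h (a + 2) (by omega), h (b + 2) (by omega)]
  ring

theorem Df_aff {x z : ℕ → ℝ} {s c : ℝ} (h : ∀ j < 15, x j = s * z j + c) (φ : ℝ)
    (P : ℝ × ℝ × ℝ) : Df φ P x = s ^ 2 * Df φ P z := by
  have mx : ∀ A B : ℝ, max 0 (-(s * A * (s * B))) = s ^ 2 * max 0 (-(A * B)) := by
    intro A B
    rw [mul_max_of_nonneg _ _ (sq_nonneg s)]
    congr 1 <;> ring
  simp only [Df, mul_add, mul_sum]
  congr 1
  · refine sum_congr rfl fun j hj => ?_
    rw [mem_range] at hj
    simp only [vv]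
    rw [h j (by omega), h (j + 1) (by omega), h (j + 2) (by omega), h (j + 3) (by omega),
      h (j + 4) (by omega), h (j + 5) (by omega)]
    ring
  · refine sum_congr rfl fun a ha => sum_congr rfl fun b hb => ?_
    rw [mem_range] at ha hb
    rw [uu_aff h _ _ (a := a) (by omega) (by omega), uu_aff h _ _ (a := a + 1) (by omega) (by omega),
      ww_aff h _ _ (a := a) (by omega) (by omega), ww_aff h _ _ (a := a + 3) (by omega) (by omega),
      mx, mx, mx]

theorem Df_rigid (p : Pt) {x : ℕ → ℝ} (h : Df p.φ (p.c1, p.c2, p.β) x ≤ 0) :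
    ∀ j < 15, x j = x 0 := by
  have mn : ∀ A B C : ℝ, 0 ≤ max 0 A + max 0 B + max 0 C := fun A B C => by positivity
  unfold Df at h
  have s1 : 0 ≤ ∑ j ∈ range 10, vv p.φ x j ^ 2 := sum_nonneg fun _ _ => sq_nonneg _
  have s2 := fun F : ℕ → ℕ → ℝ => fun hF : ∀ a b, 0 ≤ F a b =>
    sum_nonneg (s := range 10) fun a _ => sum_nonneg (s := range 10) fun b _ => hF a b
  have s3 := le_antisymm (le_of_add_le_of_nonneg_left h (s2 _ fun a b => mn _ _ _)) s1
  have s4 := le_antisymm (le_of_add_le_of_nonneg_right h s1) (s2 _ fun a b => mn _ _ _)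
  rw [sum_eq_zero_iff_of_nonneg fun _ _ => sq_nonneg _] at s3
  rw [sum_eq_zero_iff_of_nonneg fun a _ => sum_nonneg fun b _ => mn _ _ _] at s4
  have hφ : 0 < 2 + p.φ := by linarith [p.bφ.1]
  set c := (x 4 + p.φ * x 2 + x 0) / (2 + p.φ) with hc
  have hy : ∀ j ≤ 10, x (j + 4) + p.φ * x (j + 2) + x j = (2 + p.φ) * c := by
    intro j hj
    induction j with
    | zero => rw [hc]; field_simp
    | succ j ih =>
      have := pow_eq_zero_iff (two_ne_zero) |>.1 (s3 j (by simp; omega))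
      simp only [vv] at this
      linear_combination this + ih (by omega)
  set X := ext p.φ fun j => x j - c with hX
  have hrec : Rec p.φ X := fun j => rfl
  have hx : ∀ j < 15, x j = 1 * X j + c := by
    intro j
    induction j using Nat.strong_induction_on with
    | _ j ih =>
      intro hj
      match j with
      | 0 => simp [hX, ext]
      | 1 => simp [hX, ext]
      | 2 => simp [hX, ext]
      | 3 => simp [hX, ext]
      | j + 4 =>
        rw [hrec j]
        linear_combination hy j (by omega) - p.φ * ih (j + 2) (by omega) (by omega) -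
          ih j (by omega) (by omega)
  have key : ∀ a < 10, ∀ b < 10,
      0 ≤ (uu p.c1 p.β X a - uu p.c1 p.β X b) * (ww p.c2 p.β X a - ww p.c2 p.β X b) ∧
      0 ≤ (uu p.c1 p.β X (a + 1) - uu p.c1 p.β X (b + 1)) * (ww p.c2 p.β X a - ww p.c2 p.β X b) ∧
      0 ≤ (uu p.c1 p.β X a - uu p.c1 p.β X b) *
        (ww p.c2 p.β X (a + 3) - ww p.c2 p.β X (b + 3)) := by
    intro a ha b hb
    have := (sum_eq_zero_iff_of_nonneg fun b _ => mn _ _ _).1 (s4 a (mem_range.2 ha)) b
      (mem_range.2 hb)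
    simp only at this
    rw [uu_aff hx _ _ (a := a) (by omega) (by omega),
      uu_aff hx _ _ (a := a + 1) (by omega) (by omega),
      ww_aff hx _ _ (a := a) (by omega) (by omega),
      ww_aff hx _ _ (a := a + 3) (by omega) (by omega)] at this
    simp only [one_mul] at this
    have aux : ∀ A B C : ℝ, max 0 (-A) + max 0 (-B) + max 0 (-C) = 0 →
        0 ≤ A ∧ 0 ≤ B ∧ 0 ≤ C := fun A B C h => by
      refine ⟨?_, ?_, ?_⟩ <;>
      linarith [le_max_left 0 (-A), le_max_left 0 (-B), le_max_left 0 (-C),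
        le_max_right 0 (-A), le_max_right 0 (-B), le_max_right 0 (-C)]
    exact aux _ _ _ this
  have := rigid p hrec (fun a ha b hb => (key a ha b hb).1) (fun a ha b hb => (key a ha b hb).2.1)
    (fun a ha b hb => (key a ha b hb).2.2)
  intro j hj
  rw [hx j hj, hx 0 (by norm_num), this, this]

theorem Df_cont (φ : ℝ) : Continuous fun z : (ℝ × ℝ × ℝ) × (ℕ → ℝ) => Df φ z.1 z.2 := by
  simp only [Df, uu, ww, vv]
  fun_prop

theorem Df_lower (p : Pt) : ∃ δ > 0, ∀ᶠ P in 𝓝 (p.c1, p.c2, p.β), ∀ x : ℕ → ℝ,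
    δ * (x 1 - x 0) ^ 2 ≤ Df p.φ P x := by
  set K : Set (ℕ → ℝ) := (Set.univ.pi fun _ => Set.Icc (-1 : ℝ) 1) ∩
    ({x | x 0 = 0} ∩ {x | ∑ j ∈ range 15, x j ^ 2 = 1}) with hK
  have cK : IsCompact K := (isCompact_univ_pi fun _ => isCompact_Icc).inter_right
    ((isClosed_eq (by fun_prop) continuous_const).inter
      (isClosed_eq (by fun_prop) continuous_const))
  have pos : ∀ x ∈ K, 0 < Df p.φ (p.c1, p.c2, p.β) x := by
    intro x hx
    by_contra hn
    have h := Df_rigid p (not_lt.1 hn)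
    have h1 : x 0 = 0 := hx.2.1
    have h2 : ∑ j ∈ range 15, x j ^ 2 = 1 := hx.2.2
    rw [sum_eq_zero fun j hj => by rw [h j (mem_range.1 hj), h1]; ring] at h2
    exact zero_ne_one h2
  obtain ⟨δ, hδ, hδ'⟩ := cK.exists_forall_le' (f := fun x => Df p.φ (p.c1, p.c2, p.β) x)
    ((Df_cont p.φ).comp (continuous_const.prodMk continuous_id)).continuousOn pos
  refine ⟨δ / 2, by linarith, ?_⟩
  have ev := cK.eventually_forall_of_forall_eventually (x₀ := (p.c1, p.c2, p.β))
    (P := fun P x => δ / 2 < Df p.φ P x) fun x hx =>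
      (Df_cont p.φ).continuousAt.eventually (lt_mem_nhds (by linarith [hδ' x hx]))
  filter_upwards [ev] with P hP x
  have hS : ∀ j < 15, (x j - x 0) ^ 2 ≤ ∑ j ∈ range 15, (x j - x 0) ^ 2 := fun j hj =>
    single_le_sum (f := fun j => (x j - x 0) ^ 2) (fun _ _ => sq_nonneg _) (mem_range.2 hj)
  set S := ∑ j ∈ range 15, (x j - x 0) ^ 2 with hS'
  have S0 : 0 ≤ S := (sq_nonneg _).trans (hS 0 (by norm_num))
  rcases S0.eq_or_lt with h0 | h0
  · have e : (x 1 - x 0) ^ 2 = 0 := le_antisymm (h0 ▸ hS 1 (by norm_num)) (sq_nonneg _)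
    rw [e, mul_zero]
    unfold Df
    positivity
  · have hs : 0 < √S := Real.sqrt_pos.2 h0
    have hs2 : √S ^ 2 = S := Real.sq_sqrt S0
    set z : ℕ → ℝ := fun j => if j < 15 then (x j - x 0) / √S else 0 with hz
    have hxz : ∀ j < 15, x j = √S * z j + x 0 := by
      intro j hj
      simp only [hz, hj, if_true]
      field_simp; ring
    have zK : z ∈ K := by
      refine ⟨fun j _ => ?_, by simp [hz], ?_⟩
      · by_cases hj : j < 15
        · simp only [hz, hj, if_true]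
          rw [Set.mem_Icc, ← abs_le, abs_div, abs_of_pos hs, div_le_one hs]
          exact Real.le_sqrt_of_sq_le (by rw [sq_abs]; exact hS j hj)
        · simp [hz, hj]
      · have : ∑ j ∈ range 15, z j ^ 2 = ∑ j ∈ range 15, (x j - x 0) ^ 2 / S := by
          refine sum_congr rfl fun j hj => ?_
          simp only [hz, mem_range.1 hj, if_true, div_pow, hs2]
        change ∑ j ∈ range 15, z j ^ 2 = 1
        rw [this, ← sum_div, div_self h0.ne']
    rw [Df_aff hxz, hs2]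
    have := hP z zK
    have := hS 1 (by norm_num)
    nlinarith

end Pool.Agent.Lib.MP_5a160e_an
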