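import Pool.Agent.Lib.MP_5a160e_an.Gram

/-!
The local defect of a vector sequence and its lower bound near the critical tuning.
-/

namespace Pool.Agent.Lib.MP_5a160e_an

open Finset Filter Topology

variable {ι : Type} [Fintype ι]

/-- The local defect of a vector sequence on a window of length fifteen. -/
noncomputable def Df3 (φ : ℝ) (P : ℝ × ℝ × ℝ) (x : ι → ℕ → ℝ) : ℝ :=
  ∑ i, ∑ j ∈ range 10, vv φ (x i) j ^ 2 +
    (∑ a ∈ range 13, ∑ b ∈ range 13, max 0 (-Dh (PP P x) a b) +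
      ∑ j ∈ range 10, max 0 (Dh (PP P x) (j + 3) j))

theorem Dh_aff1 {u w u' w' : ℕ → ℝ} {s κ κ' : ℝ} (hu : ∀ t < 13, u t = s * u' t + κ)
    (hw : ∀ t < 13, w t = s * w' t + κ') {a b : ℕ} (ha : a < 13) (hb : b < 13) :
    Dh (fun s t => u s * w t) a b = s ^ 2 * Dh (fun s t => u' s * w' t) a b := by
  have e : ∀ n < 13, ∑ j ∈ range n, (u (j + 1) * w (j + 1) - u (j + 1) * w j) =
      s ^ 2 * ∑ j ∈ range n, (u' (j + 1) * w' (j + 1) - u' (j + 1) * w' j) +
        κ * s * (w' n - w' 0) := by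
    intro n
    induction n with
    | zero => simp
    | succ n ih =>
      intro hn
      rw [sum_range_succ, sum_range_succ, ih (by omega), hu (n + 1) hn, hw (n + 1) hn,
        hw n (by omega)]
      ring
  simp only [Dh]
  rw [e a ha, e b hb, hu b hb, hw a ha, hw b hb]
  ring

theorem Dh_aff {x z : ι → ℕ → ℝ} {s : ℝ} {c : ι → ℝ} (h : ∀ i, ∀ j < 15, x i j = s * z i j + c i)
    (P : ℝ × ℝ × ℝ) {a b : ℕ} (ha : a < 13) (hb : b < 13) :
    Dh (PP P x) a b = s ^ 2 * Dh (PP P z) a b := by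
  have e : ∀ x : ι → ℕ → ℝ, Dh (PP P x) a b =
      ∑ i, Dh (fun s t => uu P.1 P.2.2 (x i) s * ww P.2.1 P.2.2 (x i) t) a b := fun x =>
    Dh_sum (fun i s t => uu P.1 P.2.2 (x i) s * ww P.2.1 P.2.2 (x i) t) a b
  rw [e, e, mul_sum]
  refine sum_congr rfl fun i _ => Dh_aff1 (κ := (P.1 - 1 - P.2.2) * c i)
    (κ' := (P.2.1 + 1 + P.2.2) * c i) (fun t ht => ?_) (fun t ht => ?_) ha hb
  · simp only [uu]
    rw [h i t (by omega), h i (t + 1) (by omega), h i (t + 2) (by omega)]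
    ring
  · simp only [ww]
    rw [h i t (by omega), h i (t + 1) (by omega), h i (t + 2) (by omega)]
    ring

theorem Df3_aff {x z : ι → ℕ → ℝ} {s : ℝ} {c : ι → ℝ}
    (h : ∀ i, ∀ j < 15, x i j = s * z i j + c i) (φ : ℝ) (P : ℝ × ℝ × ℝ) :
    Df3 φ P x = s ^ 2 * Df3 φ P z := by
  have mx : ∀ A : ℝ, max 0 (s ^ 2 * A) = s ^ 2 * max 0 A := fun A => by
    rw [mul_max_of_nonneg _ _ (sq_nonneg s), mul_zero]
  simp only [Df3, mul_add, mul_sum]
  congr 1
  · refine sum_congr rfl fun i _ => sum_congr rfl fun j hj => ?_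
    rw [mem_range] at hj
    simp only [vv]
    rw [h i j (by omega), h i (j + 1) (by omega), h i (j + 2) (by omega), h i (j + 3) (by omega),
      h i (j + 4) (by omega), h i (j + 5) (by omega)]
    ring
  congr 1
  · refine sum_congr rfl fun a ha => sum_congr rfl fun b hb => ?_
    rw [Dh_aff h P (mem_range.1 ha) (mem_range.1 hb), ← mul_neg, mx]
  · refine sum_congr rfl fun j hj => ?_
    rw [mem_range] at hj
    rw [Dh_aff h P (by omega) (by omega), mx]

theorem rec_of_vv {φ : ℝ} (hφ : 0 < 2 + φ) {x : ℕ → ℝ} (h : ∀ j < 10, vv φ x j = 0) :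
    ∃ X c, Rec φ X ∧ ∀ j < 15, x j = 1 * X j + c := by
  obtain ⟨c, hc⟩ : ∃ c, c = (x 4 + φ * x 2 + x 0) / (2 + φ) := ⟨_, rfl⟩
  have hy : ∀ j ≤ 10, x (j + 4) + φ * x (j + 2) + x j = (2 + φ) * c := by
    intro j hj
    induction j with
    | zero => rw [hc]; field_simp
    | succ j ih =>
      have := h j (by omega)
      simp only [vv] at this
      linear_combination this + ih (by omega)
  have hrec : Rec φ (ext φ fun j => x j - c) := fun j => rfl
  refine ⟨ext φ fun j => x j - c, c, hrec, fun j => ?_⟩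
  induction j using Nat.strong_induction_on with
  | _ j ih =>
    intro hj
    match j with
    | 0 => simp [ext]
    | 1 => simp [ext]
    | 2 => simp [ext]
    | 3 => simp [ext]
    | j + 4 =>
      rw [hrec j]
      linear_combination hy j (by omega) - φ * ih (j + 2) (by omega) (by omega) -
        ih j (by omega) (by omega)

theorem Df3_rigid (hι : Fintype.card ι ≤ 3) {p : Pt} (hp : Tight p) {x : ι → ℕ → ℝ}
    (h : Df3 p.φ (p.c1, p.c2, p.β) x ≤ 0) (i : ι) : ∀ j < 15, x i j = x i 0 := by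
  unfold Df3 at h
  have s1 : 0 ≤ ∑ i, ∑ j ∈ range 10, vv p.φ (x i) j ^ 2 := by positivity
  have s2 : 0 ≤ ∑ a ∈ range 13, ∑ b ∈ range 13, max 0 (-Dh (PP (p.c1, p.c2, p.β) x) a b) := by
    positivity
  have s3 : 0 ≤ ∑ j ∈ range 10, max 0 (Dh (PP (p.c1, p.c2, p.β) x) (j + 3) j) := by positivity
  have z1 := le_antisymm (by linarith) s1
  have z2 := le_antisymm (by linarith) s2
  have z3 := le_antisymm (by linarith) s3
  rw [sum_eq_zero_iff_of_nonneg fun _ _ => sum_nonneg fun _ _ => sq_nonneg _] at z1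
  rw [sum_eq_zero_iff_of_nonneg fun _ _ => sum_nonneg fun _ _ => le_max_left _ _] at z2
  rw [sum_eq_zero_iff_of_nonneg fun _ _ => le_max_left _ _] at z3
  have hv : ∀ i, ∀ j < 10, vv p.φ (x i) j = 0 := fun i j hj =>
    pow_eq_zero_iff two_ne_zero |>.1 ((sum_eq_zero_iff_of_nonneg fun _ _ => sq_nonneg _).1
      (z1 i (mem_univ i)) j (mem_range.2 hj))
  choose X c hrec hx using fun i => rec_of_vv (by linarith [p.bφ.1]) (hv i)
  have := rigid3 hι hp hrec (fun a ha b hb => ?_) (fun j hj => ?_) i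
  · intro j hj
    rw [hx i j hj, hx i 0 (by norm_num), this, this]
  · have e := (sum_eq_zero_iff_of_nonneg fun _ _ => le_max_left _ _).1
      (z2 a (mem_range.2 (by omega))) b (mem_range.2 (by omega))
    rw [Dh_aff hx _ (by omega) (by omega), one_pow, one_mul] at e
    linarith [le_max_right 0 (-Dh (PP (p.c1, p.c2, p.β) X) a b)]
  · have e := z3 j (mem_range.2 hj)
    rw [Dh_aff hx _ (by omega) (by omega), one_pow, one_mul] at e
    linarith [le_max_right 0 (Dh (PP (p.c1, p.c2, p.β) X) (j + 3) j)]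

theorem Df3_cont (φ : ℝ) :
    Continuous fun z : (ℝ × ℝ × ℝ) × (ι → ℕ → ℝ) => Df3 φ z.1 z.2 := by
  have c : ∀ s t, Continuous fun z : (ℝ × ℝ × ℝ) × (ι → ℕ → ℝ) => PP z.1 z.2 s t := fun s t => by
    simp only [PP, uu, ww]
    fun_prop
  have d : ∀ a b, Continuous fun z : (ℝ × ℝ × ℝ) × (ι → ℕ → ℝ) => Dh (PP z.1 z.2) a b :=
    fun a b => (((continuous_finsetSum _ fun j _ => (c _ _).sub (c _ _)).sub
      (continuous_finsetSum _ fun j _ => (c _ _).sub (c _ _))).sub (c _ _)).add (c _ _)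
  refine (continuous_finsetSum _ fun i _ => continuous_finsetSum _ fun j _ => ?_).add
    ((continuous_finsetSum _ fun a _ => continuous_finsetSum _ fun b _ =>
      continuous_const.max (d a b).neg).add
      (continuous_finsetSum _ fun j _ => continuous_const.max (d _ _)))
  simp only [vv]
  fun_prop

theorem Df3_lower (hι : Fintype.card ι ≤ 3) {p : Pt} (hp : Tight p) :
    ∃ δ > 0, ∀ᶠ P in 𝓝 (p.c1, p.c2, p.β), ∀ x : ι → ℕ → ℝ,
      δ * ∑ i, (x i 1 - x i 0) ^ 2 ≤ Df3 p.φ P x := by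
  set K : Set (ι → ℕ → ℝ) := (Set.univ.pi fun _ => Set.univ.pi fun _ => Set.Icc (-1 : ℝ) 1) ∩
    ({x | ∑ i, x i 0 ^ 2 = 0} ∩ {x | ∑ i, ∑ j ∈ range 15, x i j ^ 2 = 1}) with hK
  have cK : IsCompact K :=
    (isCompact_univ_pi fun _ => isCompact_univ_pi fun _ => isCompact_Icc).inter_right
      ((isClosed_eq (by fun_prop) continuous_const).inter
        (isClosed_eq (by fun_prop) continuous_const))
  have pos : ∀ x ∈ K, 0 < Df3 p.φ (p.c1, p.c2, p.β) x := by
    intro x hx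
    by_contra hn
    have h := Df3_rigid hι hp (not_lt.1 hn)
    have h1 : ∑ i, x i 0 ^ 2 = 0 := hx.2.1
    have h2 : ∑ i, ∑ j ∈ range 15, x i j ^ 2 = 1 := hx.2.2
    rw [sum_eq_zero_iff_of_nonneg fun _ _ => sq_nonneg _] at h1
    rw [sum_eq_zero fun i _ => sum_eq_zero fun j hj => by
      rw [h i j (mem_range.1 hj), h1 i (mem_univ i)]] at h2
    exact zero_ne_one h2
  obtain ⟨δ, hδ, hδ'⟩ := cK.exists_forall_le' (f := fun x => Df3 p.φ (p.c1, p.c2, p.β) x)
    ((Df3_cont p.φ).comp (continuous_const.prodMk continuous_id)).continuousOn pos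
  refine ⟨δ / 2, by linarith, ?_⟩
  have ev := cK.eventually_forall_of_forall_eventually (x₀ := (p.c1, p.c2, p.β))
    (P := fun P x => δ / 2 < Df3 p.φ P x) fun x hx =>
      (Df3_cont p.φ).continuousAt.eventually (lt_mem_nhds (by linarith [hδ' x hx]))
  filter_upwards [ev] with P hP x
  have hS1 : ∀ i, ∀ j < 15, (x i j - x i 0) ^ 2 ≤ ∑ j ∈ range 15, (x i j - x i 0) ^ 2 :=
    fun i j hj => single_le_sum (f := fun j => (x i j - x i 0) ^ 2) (fun _ _ => sq_nonneg _)
      (mem_range.2 hj)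
  obtain ⟨S, hS'⟩ : ∃ S, S = ∑ i, ∑ j ∈ range 15, (x i j - x i 0) ^ 2 := ⟨_, rfl⟩
  have hS : ∀ i, ∀ j < 15, (x i j - x i 0) ^ 2 ≤ S := fun i j hj => (hS1 i j hj).trans (hS' ▸
    single_le_sum (f := fun i => ∑ j ∈ range 15, (x i j - x i 0) ^ 2)
      (fun _ _ => by positivity) (mem_univ i))
  have hS2 : ∑ i, (x i 1 - x i 0) ^ 2 ≤ S := hS' ▸ sum_le_sum fun i _ => hS1 i 1 (by norm_num)
  have S0 : 0 ≤ S := by rw [hS']; positivity
  rcases S0.eq_or_lt with h0 | h0
  · have e : ∑ i, (x i 1 - x i 0) ^ 2 = 0 := le_antisymm (h0 ▸ hS2) (by positivity)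
    rw [e, mul_zero]
    unfold Df3
    positivity
  · have hs : 0 < √S := Real.sqrt_pos.2 h0
    have hs2 : √S ^ 2 = S := Real.sq_sqrt S0
    set z : ι → ℕ → ℝ := fun i j => if j < 15 then (x i j - x i 0) / √S else 0 with hz
    have hxz : ∀ i, ∀ j < 15, x i j = √S * z i j + x i 0 := by
      intro i j hj
      simp only [hz, hj, if_true]
      field_simp; ring
    have zK : z ∈ K := by
      refine ⟨fun i _ j _ => ?_, by simp [hz], ?_⟩
      · by_cases hj : j < 15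
        · simp only [hz, hj, if_true]
          rw [Set.mem_Icc, ← abs_le, abs_div, abs_of_pos hs, div_le_one hs]
          exact Real.le_sqrt_of_sq_le (by rw [sq_abs]; exact hS i j hj)
        · simp [hz, hj]
      · have : ∑ i, ∑ j ∈ range 15, z i j ^ 2 =
            ∑ i, ∑ j ∈ range 15, (x i j - x i 0) ^ 2 / S := by
          refine sum_congr rfl fun i _ => sum_congr rfl fun j hj => ?_
          simp only [hz, mem_range.1 hj, if_true, div_pow, hs2]
        change ∑ i, ∑ j ∈ range 15, z i j ^ 2 = 1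
        rw [this]
        simp only [← sum_div]
        rw [← hS', div_self h0.ne']
    rw [Df3_aff hxz, hs2]
    have := hP z zK
    nlinarith

theorem Df3_le (φ : ℝ) (P : ℝ × ℝ × ℝ) (x : ι → ℕ → ℝ) (D : ℕ → ℕ → ℝ) (H : ℕ → ℝ)
    (hD : ∀ a b, D a b = H a - H b - PP P x b a + PP P x b b) (h0 : ∀ a b, 0 ≤ D a b) :
    Df3 φ P x ≤ ∑ j ∈ range 13,
      (∑ i, vv φ (x i) j ^ 2 + 179 * (D j (j + 1) + D (j + 3) j)) := by
  obtain ⟨S, hS⟩ : ∃ S : ℕ → ℝ, ∀ n, S n = ∑ j ∈ range n, D j (j + 1) := ⟨_, fun _ => rfl⟩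
  have e : ∀ n, ∑ j ∈ range n, (PP P x (j + 1) (j + 1) - PP P x (j + 1) j) = H n - H 0 + S n := by
    intro n
    induction n with
    | zero => simp [hS]
    | succ n ih => rw [sum_range_succ, ih, hS, hS, sum_range_succ, hD n]; ring
  have eD : ∀ a b, Dh (PP P x) a b = D a b + S a - S b := fun a b => by
    simp only [Dh]
    rw [e, e, hD]; ring
  have S0 : ∀ n, 0 ≤ S n := fun n => hS n ▸ sum_nonneg fun _ _ => h0 _ _
  have S1 : ∀ n ≤ 13, S n ≤ S 13 := fun n hn => by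
    rw [hS, hS]
    exact sum_le_sum_of_subset_of_nonneg (range_mono hn) fun _ _ _ => h0 _ _
  have b1 : ∑ i, ∑ j ∈ range 10, vv φ (x i) j ^ 2 ≤ ∑ j ∈ range 13, ∑ i, vv φ (x i) j ^ 2 := by
    rw [sum_comm]
    exact sum_le_sum_of_subset_of_nonneg (range_mono (by norm_num)) fun _ _ _ => by positivity
  have b2 : ∑ a ∈ range 13, ∑ b ∈ range 13, max 0 (-Dh (PP P x) a b) ≤
      ∑ _a ∈ range 13, ∑ _b ∈ range 13, S 13 :=
    sum_le_sum fun a _ => sum_le_sum fun b hb => max_le (S0 _) (by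
      rw [eD]; linarith [h0 a b, S0 a, S1 b (mem_range.1 hb).le])
  have b3 : ∑ j ∈ range 10, max 0 (Dh (PP P x) (j + 3) j) ≤
      ∑ j ∈ range 10, (D (j + 3) j + S 13) :=
    sum_le_sum fun j hj => max_le (add_nonneg (h0 _ _) (S0 _)) (by
      rw [eD]; linarith [S0 j, S1 (j + 3) (by have := mem_range.1 hj; omega)])
  have b4 : ∑ j ∈ range 10, D (j + 3) j ≤ ∑ j ∈ range 13, D (j + 3) j :=
    sum_le_sum_of_subset_of_nonneg (range_mono (by norm_num)) fun _ _ _ => h0 _ _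
  have b5 : 0 ≤ ∑ j ∈ range 13, D (j + 3) j := sum_nonneg fun _ _ => h0 _ _
  simp only [sum_add_distrib, sum_const, card_range, nsmul_eq_mul, Nat.cast_ofNat] at b2 b3
  rw [sum_add_distrib, ← mul_sum, sum_add_distrib, ← hS, Df3]
  linarith

end Pool.Agent.Lib.MP_5a160e_an
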