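import Pool.Agent.Lib.MP_5a160e_an.Primal

/-!
An open set of tunings with a cycle in dimension ten and none in dimension one.
-/

namespace Pool.Agent.Lib.MP_5a160e_an

open Finset Filter Topology

theorem main : ∃ μ L : ℝ, 0 < μ ∧ μ < L ∧ ∃ U : Set (ℝ × ℝ), IsOpen U ∧ U.Nonempty ∧
    ∀ q ∈ U, (0 < q.1 ∧ 0 < q.2 ∧ q.2 < 1 ∧ q.1 * L < 2 * (1 + q.2)) ∧
      HasCycle (EuclideanSpace ℝ (Fin 10)) μ L q.1 q.2 ∧ ¬ HasCycle ℝ μ L q.1 q.2 := by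
  obtain ⟨p⟩ := exists_pt
  obtain ⟨A, hA, oA, mA⟩ := eventually_nhds_iff.1 (no_scalar p)
  obtain ⟨y, per, hne, hy⟩ := exists_seq p
  obtain ⟨bβ1, bβ2⟩ := p.bβ
  obtain ⟨b11, b12⟩ := p.b1
  obtain ⟨b21, b22⟩ := p.b2
  obtain ⟨ε, hε, hε1, hεA⟩ : ∃ ε : ℝ, 0 < ε ∧ ε < 0.1 ∧ (p.c1, p.c2 + ε, p.β) ∈ A := by
    have c : Continuous fun ε : ℝ => (p.c1, p.c2 + ε, p.β) := by fun_prop
    have e1 : ∀ᶠ ε : ℝ in 𝓝[>] 0, (p.c1, p.c2 + ε, p.β) ∈ A :=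
      nhdsWithin_le_nhds (c.continuousAt.eventually (oA.mem_nhds (by simpa using mA)))
    have e2 : ∀ᶠ ε : ℝ in 𝓝[>] 0, ε < 0.1 := nhdsWithin_le_nhds (gt_mem_nhds (by norm_num))
    have e3 : ∀ᶠ ε : ℝ in 𝓝[>] 0, 0 < ε := self_mem_nhdsWithin
    exact (e3.and (e2.and e1)).exists
  set μ := 1 + p.β - p.c1 with hμ
  set L := p.c2 + ε + 1 + p.β with hL
  have μ0 : 0 < μ := by linarith
  have μL : μ < L := by linarith
  set Φ : ℝ × ℝ → ℝ × ℝ × ℝ := fun q => (1 + q.2 - q.1 * μ, q.1 * L - 1 - q.2, q.2) with hΦ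
  have cΦ : Continuous Φ := by fun_prop
  have Φ1 : Φ (1, p.β) = (p.c1, p.c2 + ε, p.β) := by
    simp only [hΦ, hμ, hL, Prod.mk.injEq, and_true]; constructor <;> ring
  have ccc : ∀ s, Continuous fun q => cc (Φ q) y s := fun s => by
    simp only [cc, uu, ww]; fun_prop
  refine ⟨μ, L, μ0, μL, (Φ ⁻¹' A ∩ ⋂ s ∈ (range 10).erase 0, {q | cc (Φ q) y s < cc (Φ q) y 0}) ∩
    ({q | 0 < q.1} ∩ ({q | 0 < q.2} ∩ ({q | q.2 < 1} ∩ {q | q.1 * L < 2 * (1 + q.2)}))),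
    ?_, ⟨(1, p.β), ⟨?_, ?_⟩, ?_⟩, ?_⟩
  · refine ((oA.preimage cΦ).inter (isOpen_biInter_finset fun s _ =>
      isOpen_lt (ccc s) (ccc 0))).inter ((isOpen_lt ?_ ?_).inter ((isOpen_lt ?_ ?_).inter
        ((isOpen_lt ?_ ?_).inter (isOpen_lt ?_ ?_)))) <;> fun_prop
  · rw [Set.mem_preimage, Φ1]; exact hεA
  · refine Set.mem_iInter₂.2 fun s hs => ?_
    rw [mem_erase, mem_range] at hs
    obtain ⟨h1, k, hk⟩ := hy s hs.2 hs.1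
    change cc (Φ (1, p.β)) y s < cc (Φ (1, p.β)) y 0
    rw [Φ1]
    exact cc_strict per (by linarith) hε h1 hk
  · refine ⟨?_, ?_, ?_, ?_⟩
    · change (0 : ℝ) < 1; norm_num
    · change 0 < p.β; linarith
    · change p.β < 1; linarith
    · change 1 * L < 2 * (1 + p.β); linarith
  · rintro q ⟨⟨h1, h2⟩, h3⟩
    refine ⟨h3, lift_cycle h3.1 μ0.le μL per hne fun s hs => ?_, no_cycle_of μL (hA _ h1)⟩
    rcases eq_or_ne s 0 with rfl | h0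
    · exact le_rfl
    · exact le_of_lt (Set.mem_iInter₂.1 h2 s (mem_erase.2 ⟨h0, mem_range.2 hs⟩))

end Pool.Agent.Lib.MP_5a160e_an
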