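import Pool.Agent.Lib.MP_5a160e_an.Defs

/-!
Functions of the class built from the projection on a closed convex set, and the interpolation
inequality in dimension one.
-/

namespace Pool.Agent.Lib.MP_5a160e_an

open InnerProductSpace Filter Topology Asymptotics

variable {E : Type} [NormedAddCommGroup E] [InnerProductSpace ℝ E] [CompleteSpace E]

theorem exists_proj {C : Set E} (hne : C.Nonempty) (hcl : IsClosed C) (hcv : Convex ℝ C) :
    ∃ P : E → E, ∀ x, P x ∈ C ∧ ∀ c ∈ C, ⟪x - P x, c - P x⟫_ℝ ≤ 0 := by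
  choose P hP hP' using exists_norm_eq_iInf_of_complete_convex hne hcl.isComplete hcv
  exact ⟨P, fun x => ⟨hP x, (norm_eq_iInf_iff_real_inner_le_zero hcv (hP x)).1 (hP' x)⟩⟩

omit [CompleteSpace E] in
theorem proj_firm {x y p q : E} (h1 : ⟪x - p, q - p⟫_ℝ ≤ 0) (h2 : ⟪y - q, p - q⟫_ℝ ≤ 0) :
    ‖p - q‖ ≤ ‖x - y‖ := by
  have e : ‖p - q‖ ^ 2 ≤ ⟪x - y, p - q⟫_ℝ := by
    rw [← real_inner_self_eq_norm_sq]
    simp only [inner_sub_left, inner_sub_right] at *
    linarith [real_inner_comm p q]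
  have e2 := real_inner_le_norm (x - y) (p - q)
  rcases (norm_nonneg (p - q)).eq_or_lt with h | h
  · rw [← h]; exact norm_nonneg _
  · nlinarith

theorem exists_inClass {C : Set E} (hne : C.Nonempty) (hcl : IsClosed C) (hcv : Convex ℝ C)
    {μ L : ℝ} (hμ : 0 ≤ μ) (hL : μ ≤ L) :
    ∃ f : E → ℝ, InClass E μ L f ∧ ∀ x p, p ∈ C → (∀ c ∈ C, ⟪x - p, c - p⟫_ℝ ≤ 0) →
      gradient f x = μ • x + (L - μ) • p := by
  obtain ⟨P, hP⟩ := exists_proj hne hcl hcv
  have hlip : ∀ x y, ‖P x - P y‖ ≤ ‖x - y‖ := fun x y =>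
    proj_firm ((hP x).2 _ (hP y).1) ((hP y).2 _ (hP x).1)
  set φ : E → ℝ := fun x => ⟪x, P x⟫_ℝ - ‖P x‖ ^ 2 / 2 with hφ
  have hmax : ∀ x c, c ∈ C → ⟪x, c⟫_ℝ - ‖c‖ ^ 2 / 2 ≤ φ x := by
    intro x c hc
    have h1 := (hP x).2 c hc
    have h2 : 0 ≤ ⟪c - P x, c - P x⟫_ℝ := real_inner_self_nonneg
    simp only [hφ, ← real_inner_self_eq_norm_sq, inner_sub_left, inner_sub_right] at *
    linarith [real_inner_comm c (P x)]
  have hlow : ∀ x y, φ x + ⟪P x, y - x⟫_ℝ ≤ φ y := by
    intro x y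
    have := hmax y (P x) (hP x).1
    simp only [hφ, inner_sub_right] at *
    linarith [real_inner_comm x (P x), real_inner_comm y (P x)]
  have hup : ∀ x y, φ y - φ x - ⟪P x, y - x⟫_ℝ ≤ ‖y - x‖ ^ 2 := by
    intro x y
    have h1 := hlow y x
    have h2 := real_inner_le_norm (P y - P x) (y - x)
    have h3 := hlip y x
    have h4 : ‖P y - P x‖ * ‖y - x‖ ≤ ‖y - x‖ ^ 2 := by
      rw [sq]; exact mul_le_mul_of_nonneg_right h3 (norm_nonneg _)
    simp only [inner_sub_left, inner_sub_right] at *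
    linarith
  have hl : 0 ≤ L - μ := by linarith
  have hgrad : ∀ x, HasGradientAt (fun x => μ / 2 * ‖x‖ ^ 2 + (L - μ) * φ x)
      (μ • x + (L - μ) • P x) x := by
    intro x
    rw [hasGradientAt_iff_isLittleO]
    refine IsBigO.trans_isLittleO (g := fun y => ‖y - x‖ ^ 2) ?_
      (isLittleO_pow_sub_sub x one_lt_two)
    refine IsBigO.of_bound L (Eventually.of_forall fun y => ?_)
    have h1 := hlow x y
    have h2 := hup x y
    have h3 : ‖y - x‖ ^ 2 = ‖y‖ ^ 2 - 2 * ⟪x, y - x⟫_ℝ - ‖x‖ ^ 2 := by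
      simp only [← real_inner_self_eq_norm_sq, inner_sub_left, inner_sub_right]
      linarith [real_inner_comm x y]
    have h4 : 0 ≤ ‖y - x‖ ^ 2 := by positivity
    rw [inner_add_left, real_inner_smul_left, real_inner_smul_left, Real.norm_eq_abs,
      Real.norm_eq_abs, abs_of_nonneg h4]
    have e : μ / 2 * ‖y‖ ^ 2 + (L - μ) * φ y - (μ / 2 * ‖x‖ ^ 2 + (L - μ) * φ x) -
        (μ * ⟪x, y - x⟫_ℝ + (L - μ) * ⟪P x, y - x⟫_ℝ) =
        μ / 2 * ‖y - x‖ ^ 2 + (L - μ) * (φ y - φ x - ⟪P x, y - x⟫_ℝ) := by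
      rw [h3]; ring
    rw [e, abs_of_nonneg (by nlinarith)]
    nlinarith
  refine ⟨fun x => μ / 2 * ‖x‖ ^ 2 + (L - μ) * φ x, ⟨fun x => (hgrad x).differentiableAt, ?_, ?_⟩,
    ?_⟩
  · rw [strongConvexOn_iff_convex]
    refine ⟨convex_univ, fun x _ y _ a b ha hb hab => ?_⟩
    have h1 := hlow (a • x + b • y) x
    have h2 := hlow (a • x + b • y) y
    have h3 : a * ⟪P (a • x + b • y), x - (a • x + b • y)⟫_ℝ +
        b * ⟪P (a • x + b • y), y - (a • x + b • y)⟫_ℝ = 0 := by
      obtain rfl : b = 1 - a := by linarith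
      simp only [inner_sub_right, inner_add_right, real_inner_smul_right]
      ring
    have h4 : φ (a • x + b • y) ≤ a * φ x + b * φ y := by
      have := mul_le_mul_of_nonneg_left h1 ha
      have := mul_le_mul_of_nonneg_left h2 hb
      have e : φ (a • x + b • y) = a * φ (a • x + b • y) + b * φ (a • x + b • y) := by
        rw [← add_mul, hab, one_mul]
      linarith
    simp only [smul_eq_mul]
    nlinarith
  · intro x y
    rw [(hgrad x).gradient, (hgrad y).gradient]
    have e : μ • x + (L - μ) • P x - (μ • y + (L - μ) • P y) =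
        μ • (x - y) + (L - μ) • (P x - P y) := by
      simp only [smul_sub]; abel
    rw [e]
    refine (norm_add_le _ _).trans ?_
    rw [norm_smul, norm_smul, Real.norm_of_nonneg hμ, Real.norm_of_nonneg hl]
    nlinarith [hlip x y]
  · intro x p hp h
    have : ‖P x - p‖ ≤ ‖x - x‖ := proj_firm ((hP x).2 _ hp) (h _ (hP x).1)
    rw [sub_self, norm_zero, norm_le_zero_iff, sub_eq_zero] at this
    rw [(hgrad x).gradient, this]

theorem tangent_le {g : ℝ → ℝ} (hg : ConvexOn ℝ Set.univ g) {x g' : ℝ} (h : HasDerivAt g g' x)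
    (y : ℝ) : g x + g' * (y - x) ≤ g y := by
  rcases lt_trichotomy x y with hxy | rfl | hxy
  · have := hg.le_slope_of_hasDerivAt (Set.mem_univ x) (Set.mem_univ y) hxy h
    rw [slope_def_field, le_div_iff₀ (by linarith)] at this
    linarith
  · simp
  · have := hg.slope_le_of_hasDerivAt (Set.mem_univ y) (Set.mem_univ x) hxy h
    rw [slope_def_field, div_le_iff₀ (by linarith)] at this
    linarith

/-- The interpolation inequality in dimension one, in potential form. -/
theorem interp {μ L : ℝ} (hL : μ < L) {f : ℝ → ℝ} (hf : InClass ℝ μ L f) :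
    ∃ H : ℝ → ℝ, ∀ a b, (gradient f b - μ * b) *
      ((L * a - gradient f a) - (L * b - gradient f b)) ≤ H a - H b := by
  obtain ⟨hd, hc, hl⟩ := hf
  simp only [gradient_eq_deriv'] at hl ⊢
  rw [strongConvexOn_iff_convex] at hc
  simp only [Real.norm_eq_abs, sq_abs] at hc hl
  have d1 : ∀ x, HasDerivAt (fun x => f x - μ / 2 * x ^ 2) (deriv f x - μ * x) x := by
    intro x
    have := (hd x).hasDerivAt.sub ((hasDerivAt_pow 2 x).const_mul (μ / 2))
    refine HasDerivAt.congr_deriv this ?_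
    simp; ring
  have d2 : ∀ x, HasDerivAt (fun x => L / 2 * x ^ 2 - f x) (L * x - deriv f x) x := by
    intro x
    have := ((hasDerivAt_pow 2 x).const_mul (L / 2)).sub (hd x).hasDerivAt
    refine HasDerivAt.congr_deriv this ?_
    simp; ring
  have hc2 : ConvexOn ℝ Set.univ (fun x => L / 2 * x ^ 2 - f x) := by
    refine Monotone.convexOn_univ_of_deriv (fun x => (d2 x).differentiableAt) fun x y hxy => ?_
    rw [(d2 x).deriv, (d2 y).deriv]
    have := hl y x
    rw [abs_of_nonneg (by linarith : 0 ≤ y - x)] at this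
    linarith [le_abs_self (deriv f y - deriv f x)]
  refine ⟨fun x => (L - μ) * (f x - μ / 2 * x ^ 2) - (deriv f x - μ * x) ^ 2 / 2, fun a b => ?_⟩
  have hl0 : 0 < L - μ := by linarith
  set s := ((deriv f a - μ * a) - (deriv f b - μ * b)) / (L - μ) with hs
  have hs' : (L - μ) * s = (deriv f a - μ * a) - (deriv f b - μ * b) := by
    rw [hs]; field_simp
  have t1 := tangent_le hc (d1 b) (a - s)
  have t2 := tangent_le hc2 (d2 a) (a - s)
  have t3 : (f b - μ / 2 * b ^ 2) + (deriv f b - μ * b) * (a - b) + (L - μ) / 2 * s ^ 2 ≤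
      f a - μ / 2 * a ^ 2 := by
    have : deriv f a = (L - μ) * s + μ * a + (deriv f b - μ * b) := by linarith
    rw [this] at t2
    nlinarith
  have t4 := mul_le_mul_of_nonneg_left t3 hl0.le
  have : deriv f a = (L - μ) * s + μ * a + (deriv f b - μ * b) := by linarith
  simp only
  rw [this]
  nlinarith

end Pool.Agent.Lib.MP_5a160e_an
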