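import Pool.Agent.Lib.MP_5a160e_an.Dual
import Pool.Agent.Lib.MP_5a160e_an.Proj

/-!
A two-frequency cycle of length ten.
-/

namespace Pool.Agent.Lib.MP_5a160e_an

open Finset Filter Topology InnerProductSpace

/-- Cross-correlation over a period of length ten. -/
def cc (P : ℝ × ℝ × ℝ) (y : ℕ → ℝ) (s : ℕ) : ℝ :=
  ∑ t ∈ range 10, uu P.1 P.2.2 y t * ww P.2.1 P.2.2 y (t + s)

theorem lift_cycle {μ L γ β : ℝ} (hγ : 0 < γ) (hμ : 0 ≤ μ) (hL : μ < L) {y : ℕ → ℝ}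
    (hy : ∀ t, y (t + 10) = y t) (hne : y 0 ≠ y 1)
    (h : ∀ s < 10, cc (1 + β - γ * μ, γ * L - 1 - β, β) y s ≤
      cc (1 + β - γ * μ, γ * L - 1 - β, β) y 0) :
    HasCycle (EuclideanSpace ℝ (Fin 10)) μ L γ β := by
  simp only [cc, add_zero] at h
  set U := uu (1 + β - γ * μ) β y with hU
  set W := ww (γ * L - 1 - β) β y with hW
  have pU : ∀ t, U (t + 10) = U t := fun t => by simp only [hU, uu, per_add hy, hy t]
  have pW : ∀ t, W (t + 10) = W t := fun t => by simp only [hW, ww, per_add hy, hy t]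
  have hl : 0 < γ * (L - μ) := mul_pos hγ (by linarith)
  set X : ℕ → EuclideanSpace ℝ (Fin 10) := fun t => WithLp.toLp 2 fun i => y (t + i) with hX
  set p : ℕ → EuclideanSpace ℝ (Fin 10) :=
    fun t => WithLp.toLp 2 fun i => U (t + i) / (γ * (L - μ)) with hp
  set C : Set (EuclideanSpace ℝ (Fin 10)) := {c | ∀ t, ⟪X (t + 1) - p t, c - p t⟫_ℝ ≤ 0} with hC
  have e1 : ∀ t (i : Fin 10), (X (t + 1) - p t) i = W (t + i) / (γ * (L - μ)) := by
    intro t i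
    have : L - μ ≠ 0 := by linarith
    simp only [hX, hp, hU, hW, uu, ww, PiLp.sub_apply, add_right_comm t 1 i]
    field_simp; ring
  have mem : ∀ s, p s ∈ C := by
    intro s t
    have a := sum_shift (K := 10) (F := fun j => U j * W j) (fun j => by rw [pU, pW]) t
    have b := sum_shift (K := 10) (F := fun j => U j * W (j + (t + 9 * s) % 10))
      (fun j => by rw [pU, per_add pW]) s
    have c := h _ (Nat.mod_lt (t + 9 * s) (by norm_num))
    rw [← a, ← b] at c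
    have d : ∀ j, W (j + s + (t + 9 * s) % 10) = W (j + t) := fun j => by
      have := per_mod pW (j + s + (t + 9 * s) % 10) 0
      have := per_mod pW (j + t) 0
      have : (j + s + (t + 9 * s) % 10) % 10 = (j + t) % 10 := by omega
      simp_all
    simp only [d, ← Fin.sum_univ_eq_sum_range] at c
    have e : ⟪X (t + 1) - p t, p s - p t⟫_ℝ = (∑ i : Fin 10, U (i + s) * W (i + t) -
        ∑ i : Fin 10, U (i + t) * W (i + t)) / (γ * (L - μ)) ^ 2 := by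
      rw [PiLp.inner_apply, ← sum_sub_distrib, sum_div]
      refine sum_congr rfl fun i _ => ?_
      rw [e1]
      simp only [hp, PiLp.sub_apply, add_comm s, add_comm t, RCLike.inner_apply, conj_trivial]
      field_simp
    rw [e]
    exact div_nonpos_of_nonpos_of_nonneg (sub_nonpos.2 c) (sq_nonneg _)
  have cl : IsClosed C := by
    simp only [hC, Set.ofPred_forall]
    exact isClosed_iInter fun t => isClosed_le (by fun_prop) continuous_const
  have cv : Convex ℝ C := by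
    intro a ha b hb s t hs ht hst k
    have e : s • a + t • b - p k = s • (a - p k) + t • (b - p k) := by
      rw [smul_sub, smul_sub, sub_add_sub_comm, ← add_smul, hst, one_smul]
    rw [e, inner_add_right, real_inner_smul_right, real_inner_smul_right]
    exact add_nonpos (mul_nonpos_of_nonneg_of_nonpos hs (ha k))
      (mul_nonpos_of_nonneg_of_nonpos ht (hb k))
  obtain ⟨f, hf, hg⟩ := exists_inClass ⟨_, mem 0⟩ cl cv hμ hL.le
  refine ⟨10, by norm_num, X, fun t => ?_, ⟨0, 1, fun e => hne ?_⟩, f, hf, fun t => ?_⟩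
  · simp only [hX, per_add hy]
  · simpa [hX] using congrArg (fun v => v 0) e
  · rw [hg _ _ (mem t) fun c hc => hc t]
    ext i
    have : L - μ ≠ 0 := by linarith
    simp only [hX, hp, hU, uu, PiLp.sub_apply, PiLp.add_apply, PiLp.smul_apply, smul_eq_mul,
      add_right_comm t 1 i, add_right_comm t 2 i]
    field_simp; ring

theorem cc_strict {c1 c2 β ε : ℝ} {y : ℕ → ℝ} (hy : ∀ t, y (t + 10) = y t) (hc : 0 < c1 + c2)
    (hε : 0 < ε) {s k : ℕ} (h : cc (c1, c2, β) y s ≤ cc (c1, c2, β) y 0)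
    (hk : cc (c1, c2, β) y (k + s) ≠ cc (c1, c2, β) y k) :
    cc (c1, c2 + ε, β) y s < cc (c1, c2 + ε, β) y 0 := by
  have pU : ∀ t, uu c1 β y (t + 10) = uu c1 β y t := fun t => by simp only [uu, per_add hy, hy t]
  have pW : ∀ t, ww c2 β y (t + 10) = ww c2 β y t := fun t => by simp only [ww, per_add hy, hy t]
  have e : ∀ s, (c1 + c2) * cc (c1, c2 + ε, β) y s =
      (c1 + c2 + ε) * cc (c1, c2, β) y s + ε * rr 10 (uu c1 β y) s := fun s => by
    simp only [cc, rr, mul_sum, ← sum_add_distrib]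
    exact sum_congr rfl fun t _ => by simp only [uu, ww]; ring
  have en := energy pU s
  have pos : 0 < ∑ t ∈ range 10, (uu c1 β y (t + s) - uu c1 β y t) ^ 2 := by
    refine (sum_nonneg fun _ _ => sq_nonneg _).lt_of_ne fun h0 => hk ?_
    rw [eq_comm, sum_eq_zero_iff_of_nonneg fun _ _ => sq_nonneg _] at h0
    rw [cc, cc, ← sum_shift (F := fun t => uu c1 β y t * ww c2 β y (t + k))
      (fun t => by rw [pU, per_add pW]) s]
    refine sum_congr rfl fun t ht => ?_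
    rw [sub_eq_zero.1 (pow_eq_zero_iff two_ne_zero |>.1 (h0 t ht))]
    congr 2; ring
  refine lt_of_mul_lt_mul_left ?_ hc.le
  rw [e, e]
  have a := mul_le_mul_of_nonneg_left h (by linarith : 0 ≤ c1 + c2 + ε)
  have b := mul_pos hε pos
  rw [en] at b
  linarith

theorem exists_seq (p : Pt) : ∃ y : ℕ → ℝ, (∀ t, y (t + 10) = y t) ∧ y 0 ≠ y 1 ∧
    ∀ s < 10, s ≠ 0 → cc (p.c1, p.c2, p.β) y s ≤ cc (p.c1, p.c2, p.β) y 0 ∧
      ∃ k, cc (p.c1, p.c2, p.β) y (k + s) ≠ cc (p.c1, p.c2, p.β) y k := by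
  have hφ := p.hφ
  have hψ := p.hψ
  have hy := p.hy
  obtain ⟨bφ1, bφ2⟩ := p.bφ
  obtain ⟨bψ1, bψ2⟩ := p.bψ
  obtain ⟨by1, by2⟩ := p.by'
  have b1 := mul_bd (a := p.ψ) (b := p.φ) ⟨bψ1.le, bψ2.le⟩ ⟨bφ1.le, bφ2.le⟩ (by norm_num)
    (by norm_num)
  have b2 := mul_bd (a := -p.y) (b := p.φ) (a1 := 0.9496) (a2 := 0.9498)
    ⟨by linarith, by linarith⟩ ⟨bφ1.le, bφ2.le⟩ (by norm_num) (by norm_num)
  obtain ⟨a, ha0, ha, ba⟩ : ∃ a : ℝ, 0 ≤ a ∧
      a ^ 2 * (2 * p.ψ * p.φ - 6 * p.ψ - 2 * p.φ + 6 + p.y * (1 - 2 * p.φ)) =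
        2 * p.ψ + 2 * p.ψ * p.φ - 2 * p.φ - 2 + p.y ∧ 0.34 ≤ a ^ 2 ∧ a ^ 2 ≤ 0.35 := by
    have d : 0 < 2 * p.ψ * p.φ - 6 * p.ψ - 2 * p.φ + 6 + p.y * (1 - 2 * p.φ) := by
      linarith [b1.1, b2.1]
    have l : 0.34 ≤ (2 * p.ψ + 2 * p.ψ * p.φ - 2 * p.φ - 2 + p.y) /
        (2 * p.ψ * p.φ - 6 * p.ψ - 2 * p.φ + 6 + p.y * (1 - 2 * p.φ)) := by
      rw [le_div_iff₀ d]; linarith [b1.1, b2.2]
    refine ⟨√((2 * p.ψ + 2 * p.ψ * p.φ - 2 * p.φ - 2 + p.y) /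
        (2 * p.ψ * p.φ - 6 * p.ψ - 2 * p.φ + 6 + p.y * (1 - 2 * p.φ))), Real.sqrt_nonneg _, ?_⟩
    rw [Real.sq_sqrt (by linarith)]
    refine ⟨div_mul_cancel₀ _ d.ne', l, ?_⟩
    rw [div_le_iff₀ d]; linarith [b1.2, b2.1]
  set y := ext p.φ fun j => if j = 0 then 2 * (a + 1) else if j = 1 then (p.φ - 1) * (a - 1)
    else if j = 2 then -p.φ * (a + 1) else -p.φ * (a - 1) with hyd
  have hrec : Rec p.φ y := fun j => rfl
  have per := hrec.per hφ
  have y0 : y 0 = 2 * (a + 1) := rfl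
  have y1 : y 1 = (p.φ - 1) * (a - 1) := rfl
  have y2 : y 2 = -p.φ * (a + 1) := rfl
  have y3 : y 3 = -p.φ * (a - 1) := rfl
  have y4 : y 4 = (p.φ - 1) * (a + 1) := by
    rw [hrec 0, y2, y0]; linear_combination (a + 1) * hφ
  have y5 : y 5 = 2 * (a - 1) := by
    rw [hrec 1, y3, y1]; linear_combination (a - 1) * hφ
  have y6 : y 6 = (p.φ - 1) * (a + 1) := by
    rw [hrec 2, y4, y2]; linear_combination (-(a + 1)) * hφ
  have y7 : y 7 = -p.φ * (a - 1) := by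
    rw [hrec 3, y5, y3]; ring
  have y8 : y 8 = -p.φ * (a + 1) := by
    rw [hrec 4, y6, y4]; linear_combination (-(a + 1)) * hφ
  have y9 : y 9 = (p.φ - 1) * (a - 1) := by
    rw [hrec 5, y7, y5]; linear_combination (a - 1) * hφ
  have y10 : y 10 = _ := (per 0).trans y0
  have y11 : y 11 = _ := (per 1).trans y1
  have y12 : y 12 = _ := (per 2).trans y2
  clear_value y
  have rrec : Rec p.φ (rr 10 y) := fun k => by
    simp only [rr, mul_sum, ← sum_sub_distrib]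
    exact sum_congr rfl fun t _ => by
      have := hrec (t + k)
      simp only [add_assoc] at this
      rw [this]; ring
  have r0 : rr 10 y 0 = 20 * (a ^ 2 + 1) := by
    simp only [rr, sum_range_succ, sum_range_zero, add_zero, y0, y1, y2, y3, y4, y5, y6, y7, y8, y9]
    linear_combination (8 * a ^ 2 + 8) * hφ
  have r1 : rr 10 y 1 = 10 * (p.φ - 1) * (a ^ 2 - 1) := by
    simp only [rr, sum_range_succ, sum_range_zero, Nat.reduceAdd, zero_add, y0, y1, y2, y3, y4, y5,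
      y6, y7, y8, y9, y10]
    linear_combination (-2 * (a ^ 2 - 1)) * hφ
  have r2 : rr 10 y 2 = -10 * p.φ * (a ^ 2 + 1) := by
    simp only [rr, sum_range_succ, sum_range_zero, Nat.reduceAdd, zero_add, y0, y1, y2, y3, y4, y5,
      y6, y7, y8, y9, y10, y11]
    linear_combination (-2 * (a ^ 2 + 1)) * hφ
  have r3 : rr 10 y 3 = -10 * p.φ * (a ^ 2 - 1) := by
    simp only [rr, sum_range_succ, sum_range_zero, Nat.reduceAdd, zero_add, y0, y1, y2, y3, y4, y5,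
      y6, y7, y8, y9, y10, y11, y12]
    linear_combination (-2 * (a ^ 2 - 1)) * hφ
  have r4 := rrec 0
  have r5 := rrec 1
  simp only [Nat.reduceAdd, zero_add] at r4 r5
  set g := cc (p.c1, p.c2, p.β) y with hg
  have grec : Rec p.φ g := fun k => by
    simp only [hg, cc, mul_sum, ← sum_sub_distrib]
    exact sum_congr rfl fun t _ => by
      have := hrec.ww p.c2 p.β (t + k)
      simp only [add_assoc] at this
      rw [this]; ring
  have gs : ∀ s, g s = _ := fun s => sum_uw per p.c1 p.c2 p.β s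
  have g0 : g 0 = p.β * (2 * p.ψ * rr 10 y 0 + 2 * rr 10 y 1 + p.y * rr 10 y 1) := by
    rw [gs]; simp [Fin.sum_univ_succ, Nat.dist]
    rw [r2, r0]
    linear_combination 20 * (a ^ 2 + 1) * p.h0 + rr 10 y 1 * p.h1 + rr 10 y 1 * p.h2
  have g1 : g 1 = p.β * (2 * p.ψ * rr 10 y 1 + 2 * rr 10 y 2 + p.y * rr 10 y 0) := by
    rw [gs]; simp [Fin.sum_univ_succ, Nat.dist]
    rw [r3, r1]
    linear_combination 10 * (p.φ - 1) * (a ^ 2 - 1) * p.h0 + rr 10 y 2 * p.h1 + rr 10 y 0 * p.h2 -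
      10 * p.β * (a ^ 2 - 1) * hφ
  have g2 : g 2 = p.β * (2 * p.ψ * rr 10 y 2 + 2 * rr 10 y 3 + p.y * rr 10 y 1) := by
    rw [gs]; simp [Fin.sum_univ_succ, Nat.dist]
    rw [r4]
    linear_combination rr 10 y 2 * p.h0 + rr 10 y 3 * p.h1 + rr 10 y 1 * p.h2
  have g3 : g 3 = p.β * (2 * p.ψ * rr 10 y 3 + 2 * rr 10 y 4 + p.y * rr 10 y 2) := by
    rw [gs]; simp [Fin.sum_univ_succ, Nat.dist]
    rw [r5]
    linear_combination rr 10 y 3 * p.h0 + rr 10 y 4 * p.h1 + rr 10 y 2 * p.h2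
  rw [r4] at g3
  simp only [r0, r1, r2, r3] at g0 g1 g2 g3
  generalize a ^ 2 = q at *
  have f1 : 4 * p.ψ + 2 * p.ψ * p.φ + p.y * (2 * p.φ - 1) = (p.φ + 1 + 2 * p.ψ) *
      (2 * p.ψ * p.φ - 6 * p.ψ - 2 * p.φ + 6 + p.y * (1 - 2 * p.φ)) := by
    linear_combination (2 * p.φ - 1) * hy - (4 * p.φ - 12) * hψ + (2 - 2 * p.ψ) * hφ
  have f2 : 4 * p.ψ - 2 * p.ψ * p.φ - 4 * p.φ + 4 + p.y = -(p.φ + 1 + 2 * p.ψ) *
      (2 * p.ψ + 2 * p.ψ * p.φ - 2 * p.φ - 2 + p.y) := by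
    linear_combination hy + 4 * (p.φ + 1) * hψ + 2 * (p.ψ + 1) * hφ
  have e3 : g 3 = g 0 := by
    rw [g3, g0]
    linear_combination (-10 * p.β) * (q * f1 + f2 + (p.φ + 1 + 2 * p.ψ) * ha) +
      20 * p.β * (q + 1) * hφ
  obtain ⟨e7, e9⟩ := grec.vals' hφ 1
  obtain ⟨e6, e8⟩ := grec.vals' hφ 0
  have e4 := grec 0
  have e5 := grec 1
  have e10 := grec.per hφ 0
  simp only [Nat.reduceAdd, zero_add] at e4 e5 e6 e7 e8 e9 e10
  have e9' : g 9 = g 0 := by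
    rw [e9, g3, g1, g0]
    linear_combination 10 * p.β * ha + 20 * p.β * p.ψ * (1 - q) * hφ
  have q1 := mul_bd ba (b := 4 * p.ψ + (2 + p.y) * (p.φ - 1)) (b1 := 5.73) (b2 := 5.74)
    ⟨by linarith [b2.2], by linarith [b2.1]⟩ (by norm_num) (by norm_num)
  have q2 := mul_bd ba (b := 2 * p.ψ * p.φ + 2 * p.φ - p.y * (p.φ - 1)) (b1 := 7.93) (b2 := 7.95)
    ⟨by linarith [b2.1, b1.1], by linarith [b2.2, b1.2]⟩ (by norm_num) (by norm_num)
  obtain ⟨G0, hG0, bG0⟩ : ∃ G0, g 0 = 10 * p.β * G0 ∧ 6.3 ≤ G0 ∧ G0 ≤ 6.5 :=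
    ⟨q * (4 * p.ψ + (2 + p.y) * (p.φ - 1)) + (4 * p.ψ - (2 + p.y) * (p.φ - 1)), by rw [g0]; ring,
      by linarith [q1.1, b2.1], by linarith [q1.2, b2.2]⟩
  obtain ⟨G2, hG2, bG2⟩ : ∃ G2, g 2 = -(10 * p.β * G2) ∧ 2.9 ≤ G2 ∧ G2 ≤ 3.2 :=
    ⟨q * (2 * p.ψ * p.φ + 2 * p.φ - p.y * (p.φ - 1)) +
      (2 * p.ψ * p.φ - 2 * p.φ + p.y * (p.φ - 1)), by rw [g2]; ring,
      by linarith [q2.1, b2.2, b1.1], by linarith [q2.2, b2.1, b1.2]⟩
  have hβ : 0 < 10 * p.β := by linarith [p.bβ.1]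
  have m0 := mul_bd bG0 ⟨bφ1.le, bφ2.le⟩ (by norm_num) (by norm_num)
  have m2 := mul_bd bG2 ⟨bφ1.le, bφ2.le⟩ (by norm_num) (by norm_num)
  have z0 : 0 < g 0 := by rw [hG0]; exact mul_pos hβ (by linarith [bG0.1])
  have e1 : g 1 = (2 - 2 * p.φ) * g 0 := by
    linear_combination (p.φ - 1) * (e9 - e9' - e3) - g 1 * hφ
  have z1 := mul_pos z0 (by linarith : 0 < p.φ - 1)
  have z2 := mul_pos z0 (by linarith : 0 < 2 - p.φ)
  have l1 : g 1 < g 0 := by rw [e1]; linarith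
  have l2 : g 2 < g 0 := by
    rw [hG2]; linarith [mul_pos hβ (by linarith [bG2.1] : 0 < G2)]
  have l4 : g 4 < g 0 := by
    rw [e4, hG2, hG0]
    linarith [mul_pos hβ (by linarith [bG0.1, m2.2] : 0 < 2 * G0 - G2 * p.φ)]
  have l5 : g 5 < g 0 := by rw [e5, e3, e1]; linarith
  have l6 : g 6 < g 0 := by
    rw [e6, hG2, hG0]
    linarith [mul_pos hβ (by linarith [bG0.1, m0.2, m2.1] : 0 < G0 + G2 * p.φ - G0 * p.φ)]
  have l7 : g 7 < g 0 := by
    have : g 7 = (p.φ - 2) * g 0 := by rw [e7, e3, e1]; linear_combination (-2 * g 0) * hφ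
    rw [this]; linarith
  have l8 : g 8 < g 0 := by
    rw [e8, hG2, hG0]
    linarith [mul_pos hβ (by linarith [bG0.1, bG2.2, m0.1] : 0 < G0 - G2 + G0 * p.φ)]
  refine ⟨y, per, ?_, fun s hs h0 => ?_⟩
  · intro h
    rw [y0, y1] at h
    linarith [mul_nonneg ha0 (by linarith : 0 ≤ 3 - p.φ)]
  · interval_cases s
    · exact absurd rfl h0
    · exact ⟨l1.le, 0, l1.ne⟩
    · exact ⟨l2.le, 0, l2.ne⟩
    · exact ⟨e3.le, 3, (l6.trans_eq e3.symm).ne⟩
    · exact ⟨l4.le, 0, l4.ne⟩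
    · exact ⟨l5.le, 0, l5.ne⟩
    · exact ⟨l6.le, 0, l6.ne⟩
    · exact ⟨l7.le, 0, l7.ne⟩
    · exact ⟨l8.le, 0, l8.ne⟩
    · exact ⟨e9'.le, 1, (l1.trans_eq e10.symm).ne'⟩

theorem no_cycle_of {μ L γ β : ℝ} (hL : μ < L)
    (h : ∀ K, 0 < K → ∀ x H : ℕ → ℝ, (∀ t, x (t + K) = x t) → (∀ t, H (t + K) = H t) →
      (∀ a b, uu (1 + β - γ * μ) β x b * (ww (γ * L - 1 - β) β x a - ww (γ * L - 1 - β) β x b) ≤
        H a - H b) → ∀ t, x t = x 0) : ¬ HasCycle ℝ μ L γ β := by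
  rintro ⟨K, hK, x, hx, ⟨s, t, hst⟩, f, hf, hb⟩
  obtain ⟨H, hH⟩ := interp hL hf
  have := h K (by omega) x (fun t => γ ^ 2 * H (x (t + 1))) hx (fun t => by rw [per_add hx])
    fun a b => by
      have e := mul_le_mul_of_nonneg_left (hH (x (a + 1)) (x (b + 1))) (sq_nonneg γ)
      have ea := hb a
      have eb := hb b
      simp only [smul_eq_mul] at ea eb
      simp only [uu, ww, ea, eb]
      linarith
  exact hst ((this s).trans (this t).symm)

end Pool.Agent.Lib.MP_5a160e_an
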