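import Pool.Agent.Lib.MP_5a160e_an.Interp

/-!
The two-frequency cycle of length ten spans at most four dimensions.
-/

namespace Pool.Agent.Lib.MP_5a160e_an

open Finset Filter Topology InnerProductSpace

theorem lift4 {μ L γ β φ : ℝ} (hγ : 0 < γ) (hμ : 0 ≤ μ) (hL : μ < L) {y : ℕ → ℝ}
    (hrec : Rec φ y) (hy : ∀ t, y (t + 10) = y t) (hne : y 0 ≠ y 1)
    (h : ∀ s < 10, cc (1 + β - γ * μ, γ * L - 1 - β, β) y s ≤
      cc (1 + β - γ * μ, γ * L - 1 - β, β) y 0) :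
    ∃ n ≤ 4, HasCycle (EuclideanSpace ℝ (Fin n)) μ L γ β := by
  simp only [cc, add_zero] at h
  set U := uu (1 + β - γ * μ) β y with hU
  set W := ww (γ * L - 1 - β) β y with hW
  have pU : ∀ t, U (t + 10) = U t := fun t => by simp only [hU, uu, per_add hy, hy t]
  have pW : ∀ t, W (t + 10) = W t := fun t => by simp only [hW, ww, per_add hy, hy t]
  set X : ℕ → EuclideanSpace ℝ (Fin 10) := fun t => WithLp.toLp 2 fun i => y (t + i) with hX
  have hin : ∀ s t, ⟪(γ * L - 1 - β) • X (t + 1) + X (t + 2) + β • X t,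
      ((1 + β - γ * μ) • X (s + 1) - X (s + 2) - β • X s) -
        ((1 + β - γ * μ) • X (t + 1) - X (t + 2) - β • X t)⟫_ℝ ≤ 0 := by
    intro s t
    have a := sum_shift (K := 10) (F := fun j => U j * W j) (fun j => by rw [pU, pW]) t
    have b := sum_shift (K := 10) (F := fun j => U j * W (j + (t + 9 * s) % 10))
      (fun j => by rw [pU, per_add pW]) s
    have c := h _ (Nat.mod_lt (t + 9 * s) (by norm_num))
    rw [← a, ← b] at c
    have d : ∀ j, W (j + s + (t + 9 * s) % 10) = W (j + t) := fun j => by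
      have := per_mod pW (j + s + (t + 9 * s) % 10) 0
      have := per_mod pW (j + t) 0
      have : (j + s + (t + 9 * s) % 10) % 10 = (j + t) % 10 := by omega
      simp_all
    simp only [d, ← Fin.sum_univ_eq_sum_range] at c
    refine le_trans (le_of_eq ?_) (sub_nonpos.2 c)
    rw [PiLp.inner_apply, ← sum_sub_distrib]
    refine sum_congr rfl fun i _ => ?_
    simp only [hX, hU, hW, uu, ww, PiLp.sub_apply, PiLp.add_apply, PiLp.smul_apply, smul_eq_mul,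
      RCLike.inner_apply, conj_trivial, add_comm (i : ℕ), add_right_comm _ (i : ℕ)]
    ring
  have hXrec : ∀ j, X (j + 4) = (-φ) • X (j + 2) - X j := fun j => by
    ext i
    simp only [hX, PiLp.sub_apply, PiLp.smul_apply, smul_eq_mul, add_right_comm j _ (i : ℕ)]
    exact hrec (j + i)
  let V : Submodule ℝ (EuclideanSpace ℝ (Fin 10)) :=
    Submodule.span ℝ (Set.range fun k : Fin 4 => X k)
  have hV : Module.finrank ℝ V ≤ 4 :=
    (finrank_range_le_card (R := ℝ) fun k : Fin 4 => X k).trans (by simp)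
  have mem : ∀ t, X t ∈ V := fun t => by
    induction t using Nat.strong_induction_on with
    | _ t ih =>
      match t with
      | 0 => exact Submodule.subset_span ⟨0, rfl⟩
      | 1 => exact Submodule.subset_span ⟨1, rfl⟩
      | 2 => exact Submodule.subset_span ⟨2, rfl⟩
      | 3 => exact Submodule.subset_span ⟨3, rfl⟩
      | t + 4 =>
        rw [hXrec]
        exact V.sub_mem (V.smul_mem _ (ih _ (by omega))) (ih _ (by omega))
  let e := (stdOrthonormalBasis ℝ V).repr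
  refine ⟨_, hV, lift_gen hγ hμ hL (X := fun t => e ⟨X t, mem t⟩) (fun t => ?_) (fun h0 => hne ?_)
    fun s t => ?_⟩
  · congr 2
    simp only [hX, per_add hy]
  · have := congrArg Subtype.val (e.injective h0)
    simpa [hX] using congrArg (fun v : EuclideanSpace ℝ (Fin 10) => v 0) this
  · simp only [← map_smul, ← map_add, ← map_sub, LinearIsometryEquiv.inner_map_map]
    exact hin s t

theorem exists_seq4 (p : Pt) : ∃ y : ℕ → ℝ, Rec p.φ y ∧ y 0 ≠ y 1 ∧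
    ∀ s < 10, s ≠ 0 → cc (p.c1, p.c2, p.β) y s ≤ cc (p.c1, p.c2, p.β) y 0 ∧
      ∃ k, cc (p.c1, p.c2, p.β) y (k + s) ≠ cc (p.c1, p.c2, p.β) y k := by
  have hφ := p.hφ
  have hψ := p.hψ
  have hy := p.hy
  obtain ⟨bφ1, bφ2⟩ := p.bφ
  obtain ⟨bψ1, bψ2⟩ := p.bψ
  obtain ⟨by1, by2⟩ := p.by'
  have b1 := mul_bd (a := p.ψ) (b := p.φ) ⟨bψ1.le, bψ2.le⟩ ⟨bφ1.le, bφ2.le⟩ (by norm_num)
    (by norm_num)
  have b2 := mul_bd (a := -p.y) (b := p.φ) (a1 := 0.9496) (a2 := 0.9498)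
    ⟨by linarith, by linarith⟩ ⟨bφ1.le, bφ2.le⟩ (by norm_num) (by norm_num)
  obtain ⟨a, ha0, ha, ba⟩ : ∃ a : ℝ, 0 ≤ a ∧
      a ^ 2 * (2 * p.ψ * p.φ - 6 * p.ψ - 2 * p.φ + 6 + p.y * (1 - 2 * p.φ)) =
        2 * p.ψ + 2 * p.ψ * p.φ - 2 * p.φ - 2 + p.y ∧ 0.34 ≤ a ^ 2 ∧ a ^ 2 ≤ 0.35 := by
    have d : 0 < 2 * p.ψ * p.φ - 6 * p.ψ - 2 * p.φ + 6 + p.y * (1 - 2 * p.φ) := by
      linarith [b1.1, b2.1]
    have l : 0.34 ≤ (2 * p.ψ + 2 * p.ψ * p.φ - 2 * p.φ - 2 + p.y) /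
        (2 * p.ψ * p.φ - 6 * p.ψ - 2 * p.φ + 6 + p.y * (1 - 2 * p.φ)) := by
      rw [le_div_iff₀ d]; linarith [b1.1, b2.2]
    refine ⟨√((2 * p.ψ + 2 * p.ψ * p.φ - 2 * p.φ - 2 + p.y) /
        (2 * p.ψ * p.φ - 6 * p.ψ - 2 * p.φ + 6 + p.y * (1 - 2 * p.φ))), Real.sqrt_nonneg _, ?_⟩
    rw [Real.sq_sqrt (by linarith)]
    refine ⟨div_mul_cancel₀ _ d.ne', l, ?_⟩
    rw [div_le_iff₀ d]; linarith [b1.2, b2.1]
  set y := ext p.φ fun j => if j = 0 then 2 * (a + 1) else if j = 1 then (p.φ - 1) * (a - 1)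
    else if j = 2 then -p.φ * (a + 1) else -p.φ * (a - 1) with hyd
  have hrec : Rec p.φ y := fun j => rfl
  have per := hrec.per hφ
  have y0 : y 0 = 2 * (a + 1) := rfl
  have y1 : y 1 = (p.φ - 1) * (a - 1) := rfl
  have y2 : y 2 = -p.φ * (a + 1) := rfl
  have y3 : y 3 = -p.φ * (a - 1) := rfl
  have y4 : y 4 = (p.φ - 1) * (a + 1) := by
    rw [hrec 0, y2, y0]; linear_combination (a + 1) * hφ
  have y5 : y 5 = 2 * (a - 1) := by
    rw [hrec 1, y3, y1]; linear_combination (a - 1) * hφ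
  have y6 : y 6 = (p.φ - 1) * (a + 1) := by
    rw [hrec 2, y4, y2]; linear_combination (-(a + 1)) * hφ
  have y7 : y 7 = -p.φ * (a - 1) := by
    rw [hrec 3, y5, y3]; ring
  have y8 : y 8 = -p.φ * (a + 1) := by
    rw [hrec 4, y6, y4]; linear_combination (-(a + 1)) * hφ
  have y9 : y 9 = (p.φ - 1) * (a - 1) := by
    rw [hrec 5, y7, y5]; linear_combination (a - 1) * hφ
  have y10 : y 10 = _ := (per 0).trans y0
  have y11 : y 11 = _ := (per 1).trans y1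
  have y12 : y 12 = _ := (per 2).trans y2
  clear_value y
  have rrec : Rec p.φ (rr 10 y) := fun k => by
    simp only [rr, mul_sum, ← sum_sub_distrib]
    exact sum_congr rfl fun t _ => by
      have := hrec (t + k)
      simp only [add_assoc] at this
      rw [this]; ring
  have r0 : rr 10 y 0 = 20 * (a ^ 2 + 1) := by
    simp only [rr, sum_range_succ, sum_range_zero, add_zero, y0, y1, y2, y3, y4, y5, y6, y7, y8, y9]
    linear_combination (8 * a ^ 2 + 8) * hφ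
  have r1 : rr 10 y 1 = 10 * (p.φ - 1) * (a ^ 2 - 1) := by
    simp only [rr, sum_range_succ, sum_range_zero, Nat.reduceAdd, zero_add, y0, y1, y2, y3, y4, y5,
      y6, y7, y8, y9, y10]
    linear_combination (-2 * (a ^ 2 - 1)) * hφ
  have r2 : rr 10 y 2 = -10 * p.φ * (a ^ 2 + 1) := by
    simp only [rr, sum_range_succ, sum_range_zero, Nat.reduceAdd, zero_add, y0, y1, y2, y3, y4, y5,
      y6, y7, y8, y9, y10, y11]
    linear_combination (-2 * (a ^ 2 + 1)) * hφ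
  have r3 : rr 10 y 3 = -10 * p.φ * (a ^ 2 - 1) := by
    simp only [rr, sum_range_succ, sum_range_zero, Nat.reduceAdd, zero_add, y0, y1, y2, y3, y4, y5,
      y6, y7, y8, y9, y10, y11, y12]
    linear_combination (-2 * (a ^ 2 - 1)) * hφ
  have r4 := rrec 0
  have r5 := rrec 1
  simp only [Nat.reduceAdd, zero_add] at r4 r5
  set g := cc (p.c1, p.c2, p.β) y with hg
  have grec : Rec p.φ g := fun k => by
    simp only [hg, cc, mul_sum, ← sum_sub_distrib]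
    exact sum_congr rfl fun t _ => by
      have := hrec.ww p.c2 p.β (t + k)
      simp only [add_assoc] at this
      rw [this]; ring
  have gs : ∀ s, g s = _ := fun s => sum_uw per p.c1 p.c2 p.β s
  have g0 : g 0 = p.β * (2 * p.ψ * rr 10 y 0 + 2 * rr 10 y 1 + p.y * rr 10 y 1) := by
    rw [gs]; simp [Fin.sum_univ_succ, Nat.dist]
    rw [r2, r0]
    linear_combination 20 * (a ^ 2 + 1) * p.h0 + rr 10 y 1 * p.h1 + rr 10 y 1 * p.h2
  have g1 : g 1 = p.β * (2 * p.ψ * rr 10 y 1 + 2 * rr 10 y 2 + p.y * rr 10 y 0) := by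
    rw [gs]; simp [Fin.sum_univ_succ, Nat.dist]
    rw [r3, r1]
    linear_combination 10 * (p.φ - 1) * (a ^ 2 - 1) * p.h0 + rr 10 y 2 * p.h1 + rr 10 y 0 * p.h2 -
      10 * p.β * (a ^ 2 - 1) * hφ
  have g2 : g 2 = p.β * (2 * p.ψ * rr 10 y 2 + 2 * rr 10 y 3 + p.y * rr 10 y 1) := by
    rw [gs]; simp [Fin.sum_univ_succ, Nat.dist]
    rw [r4]
    linear_combination rr 10 y 2 * p.h0 + rr 10 y 3 * p.h1 + rr 10 y 1 * p.h2
  have g3 : g 3 = p.β * (2 * p.ψ * rr 10 y 3 + 2 * rr 10 y 4 + p.y * rr 10 y 2) := by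
    rw [gs]; simp [Fin.sum_univ_succ, Nat.dist]
    rw [r5]
    linear_combination rr 10 y 3 * p.h0 + rr 10 y 4 * p.h1 + rr 10 y 2 * p.h2
  rw [r4] at g3
  simp only [r0, r1, r2, r3] at g0 g1 g2 g3
  generalize a ^ 2 = q at *
  have f1 : 4 * p.ψ + 2 * p.ψ * p.φ + p.y * (2 * p.φ - 1) = (p.φ + 1 + 2 * p.ψ) *
      (2 * p.ψ * p.φ - 6 * p.ψ - 2 * p.φ + 6 + p.y * (1 - 2 * p.φ)) := by
    linear_combination (2 * p.φ - 1) * hy - (4 * p.φ - 12) * hψ + (2 - 2 * p.ψ) * hφ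
  have f2 : 4 * p.ψ - 2 * p.ψ * p.φ - 4 * p.φ + 4 + p.y = -(p.φ + 1 + 2 * p.ψ) *
      (2 * p.ψ + 2 * p.ψ * p.φ - 2 * p.φ - 2 + p.y) := by
    linear_combination hy + 4 * (p.φ + 1) * hψ + 2 * (p.ψ + 1) * hφ
  have e3 : g 3 = g 0 := by
    rw [g3, g0]
    linear_combination (-10 * p.β) * (q * f1 + f2 + (p.φ + 1 + 2 * p.ψ) * ha) +
      20 * p.β * (q + 1) * hφ
  obtain ⟨e7, e9⟩ := grec.vals' hφ 1
  obtain ⟨e6, e8⟩ := grec.vals' hφ 0
  have e4 := grec 0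
  have e5 := grec 1
  have e10 := grec.per hφ 0
  simp only [Nat.reduceAdd, zero_add] at e4 e5 e6 e7 e8 e9 e10
  have e9' : g 9 = g 0 := by
    rw [e9, g3, g1, g0]
    linear_combination 10 * p.β * ha + 20 * p.β * p.ψ * (1 - q) * hφ
  have q1 := mul_bd ba (b := 4 * p.ψ + (2 + p.y) * (p.φ - 1)) (b1 := 5.73) (b2 := 5.74)
    ⟨by linarith [b2.2], by linarith [b2.1]⟩ (by norm_num) (by norm_num)
  have q2 := mul_bd ba (b := 2 * p.ψ * p.φ + 2 * p.φ - p.y * (p.φ - 1)) (b1 := 7.93) (b2 := 7.95)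
    ⟨by linarith [b2.1, b1.1], by linarith [b2.2, b1.2]⟩ (by norm_num) (by norm_num)
  obtain ⟨G0, hG0, bG0⟩ : ∃ G0, g 0 = 10 * p.β * G0 ∧ 6.3 ≤ G0 ∧ G0 ≤ 6.5 :=
    ⟨q * (4 * p.ψ + (2 + p.y) * (p.φ - 1)) + (4 * p.ψ - (2 + p.y) * (p.φ - 1)), by rw [g0]; ring,
      by linarith [q1.1, b2.1], by linarith [q1.2, b2.2]⟩
  obtain ⟨G2, hG2, bG2⟩ : ∃ G2, g 2 = -(10 * p.β * G2) ∧ 2.9 ≤ G2 ∧ G2 ≤ 3.2 :=
    ⟨q * (2 * p.ψ * p.φ + 2 * p.φ - p.y * (p.φ - 1)) +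
      (2 * p.ψ * p.φ - 2 * p.φ + p.y * (p.φ - 1)), by rw [g2]; ring,
      by linarith [q2.1, b2.2, b1.1], by linarith [q2.2, b2.1, b1.2]⟩
  have hβ : 0 < 10 * p.β := by linarith [p.bβ.1]
  have m0 := mul_bd bG0 ⟨bφ1.le, bφ2.le⟩ (by norm_num) (by norm_num)
  have m2 := mul_bd bG2 ⟨bφ1.le, bφ2.le⟩ (by norm_num) (by norm_num)
  have z0 : 0 < g 0 := by rw [hG0]; exact mul_pos hβ (by linarith [bG0.1])
  have e1 : g 1 = (2 - 2 * p.φ) * g 0 := by
    linear_combination (p.φ - 1) * (e9 - e9' - e3) - g 1 * hφ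
  have z1 := mul_pos z0 (by linarith : 0 < p.φ - 1)
  have z2 := mul_pos z0 (by linarith : 0 < 2 - p.φ)
  have l1 : g 1 < g 0 := by rw [e1]; linarith
  have l2 : g 2 < g 0 := by
    rw [hG2]; linarith [mul_pos hβ (by linarith [bG2.1] : 0 < G2)]
  have l4 : g 4 < g 0 := by
    rw [e4, hG2, hG0]
    linarith [mul_pos hβ (by linarith [bG0.1, m2.2] : 0 < 2 * G0 - G2 * p.φ)]
  have l5 : g 5 < g 0 := by rw [e5, e3, e1]; linarith
  have l6 : g 6 < g 0 := by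
    rw [e6, hG2, hG0]
    linarith [mul_pos hβ (by linarith [bG0.1, m0.2, m2.1] : 0 < G0 + G2 * p.φ - G0 * p.φ)]
  have l7 : g 7 < g 0 := by
    have : g 7 = (p.φ - 2) * g 0 := by rw [e7, e3, e1]; linear_combination (-2 * g 0) * hφ
    rw [this]; linarith
  have l8 : g 8 < g 0 := by
    rw [e8, hG2, hG0]
    linarith [mul_pos hβ (by linarith [bG0.1, bG2.2, m0.1] : 0 < G0 - G2 + G0 * p.φ)]
  refine ⟨y, hrec, ?_, fun s hs h0 => ?_⟩
  · intro h
    rw [y0, y1] at h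
    linarith [mul_nonneg ha0 (by linarith : 0 ≤ 3 - p.φ)]
  · interval_cases s
    · exact absurd rfl h0
    · exact ⟨l1.le, 0, l1.ne⟩
    · exact ⟨l2.le, 0, l2.ne⟩
    · exact ⟨e3.le, 3, (l6.trans_eq e3.symm).ne⟩
    · exact ⟨l4.le, 0, l4.ne⟩
    · exact ⟨l5.le, 0, l5.ne⟩
    · exact ⟨l6.le, 0, l6.ne⟩
    · exact ⟨l7.le, 0, l7.ne⟩
    · exact ⟨l8.le, 0, l8.ne⟩
    · exact ⟨e9'.le, 1, (l1.trans_eq e10.symm).ne'⟩

end Pool.Agent.Lib.MP_5a160e_an
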