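import Mathlib

/-!
The critical tuning and the rigidity of scalar sequences at it.
-/

namespace Pool.Agent.Lib.MP_5a160e_an

/-- The sequence `γ (∇f - μ x)` along a heavy-ball orbit. -/
def uu (c β : ℝ) (x : ℕ → ℝ) (t : ℕ) : ℝ := c * x (t + 1) - x (t + 2) - β * x t

/-- The sequence `γ (L x - ∇f)` along a heavy-ball orbit. -/
def ww (c β : ℝ) (x : ℕ → ℝ) (t : ℕ) : ℝ := c * x (t + 1) + x (t + 2) + β * x t

/-- The spectral factor of the multiplier inequality. -/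
def vv (φ : ℝ) (x : ℕ → ℝ) (t : ℕ) : ℝ :=
  x (t + 5) - x (t + 4) + φ * x (t + 3) - φ * x (t + 2) + x (t + 1) - x t

/-- The critical tuning. -/
structure Pt where
  φ : ℝ
  ψ : ℝ
  y : ℝ
  β : ℝ
  c1 : ℝ
  c2 : ℝ
  hφ : φ ^ 2 = φ + 1
  hψ : ψ ^ 2 = φ
  hy : y * (φ + 2 + 2 * ψ) = 2 * φ - 4 - 4 * ψ
  h1 : c1 - β * c2 = 2 * β
  h2 : β * c1 - c2 = β * y
  h0 : c1 * c2 - 1 - β ^ 2 = β * (2 * ψ - φ)
  bφ : 1.618 < φ ∧ φ < 1.6181
  bψ : 1.272 < ψ ∧ ψ < 1.27205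
  by' : -0.9498 < y ∧ y < -0.9496
  bβ : 0.4677 ≤ β ∧ β ≤ 0.4678
  b1 : 1.46 < c1 ∧ c1 < 1.467
  b2 : 1.12 < c2 ∧ c2 < 1.135

theorem exists_pt : Nonempty Pt := by
  obtain ⟨φ, hφ, bφ⟩ : ∃ φ : ℝ, φ ^ 2 = φ + 1 ∧ 1.61803 < φ ∧ φ < 1.61804 := by
    have h5 : √5 ^ 2 = 5 := Real.sq_sqrt (by norm_num)
    have h0 : 0 ≤ √5 := Real.sqrt_nonneg 5
    refine ⟨(1 + √5) / 2, by nlinarith, by nlinarith, by nlinarith⟩
  obtain ⟨ψ, hψ, bψ⟩ : ∃ ψ : ℝ, ψ ^ 2 = φ ∧ 1.272 < ψ ∧ ψ < 1.27205 := by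
    have h5 : √φ ^ 2 = φ := Real.sq_sqrt (by linarith)
    have h0 : 0 ≤ √φ := Real.sqrt_nonneg φ
    refine ⟨√φ, h5, by nlinarith, by nlinarith⟩
  obtain ⟨y, hy, by'⟩ : ∃ y : ℝ, y * (φ + 2 + 2 * ψ) = 2 * φ - 4 - 4 * ψ ∧
      -0.9498 < y ∧ y < -0.9496 := by
    have h0 : 0 < φ + 2 + 2 * ψ := by linarith
    refine ⟨(2 * φ - 4 - 4 * ψ) / (φ + 2 + 2 * ψ), by field_simp, ?_, ?_⟩
    · rw [lt_div_iff₀ h0]; linarith
    · rw [div_lt_iff₀ h0]; linarith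
  obtain ⟨β, bβ, hβ⟩ : ∃ β ∈ Set.Icc (0.4677 : ℝ) 0.4678, β ^ 2 * (2 - β * y) * (2 * β - y) -
      (1 + β ^ 2 + β * (2 * ψ - φ)) * (1 - β ^ 2) ^ 2 = 0 := by
    refine intermediate_value_Icc (f := fun β : ℝ => β ^ 2 * (2 - β * y) * (2 * β - y) -
      (1 + β ^ 2 + β * (2 * ψ - φ)) * (1 - β ^ 2) ^ 2) (by norm_num) (by fun_prop) ⟨?_, ?_⟩
    · nlinarith [by'.1, by'.2]
    · nlinarith [by'.1, by'.2]
  have h0 : 0 < 1 - β ^ 2 := by nlinarith [bβ.1, bβ.2]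
  have hb2 : 0.21874 < β ^ 2 ∧ β ^ 2 < 0.21884 := by constructor <;> nlinarith [bβ.1, bβ.2]
  refine ⟨⟨φ, ψ, y, β, β * (2 - β * y) / (1 - β ^ 2), β * (2 * β - y) / (1 - β ^ 2), hφ, hψ, hy,
    by field_simp; ring, by field_simp; ring, ?_, ⟨by linarith, by linarith⟩, bψ, by', bβ,
    ⟨?_, ?_⟩, ⟨?_, ?_⟩⟩⟩
  · field_simp; linear_combination hβ
  · rw [lt_div_iff₀ h0]; nlinarith [bβ.1, bβ.2]
  · rw [div_lt_iff₀ h0]; nlinarith [bβ.1, bβ.2]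
  · rw [lt_div_iff₀ h0]; nlinarith [bβ.1, bβ.2]
  · rw [div_lt_iff₀ h0]; nlinarith [bβ.1, bβ.2]

/-- The recurrence cut out by the two critical frequencies. -/
def Rec (φ : ℝ) (X : ℕ → ℝ) : Prop := ∀ j, X (j + 4) = -φ * X (j + 2) - X j

theorem Rec.uu {φ : ℝ} {X : ℕ → ℝ} (h : Rec φ X) (c β : ℝ) : Rec φ (uu c β X) := fun j => by
  simp only [MP_5a160e_an.uu]
  linear_combination c * h (j + 1) - h (j + 2) - β * h j

theorem Rec.ww {φ : ℝ} {X : ℕ → ℝ} (h : Rec φ X) (c β : ℝ) : Rec φ (ww c β X) := fun j => by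
  simp only [MP_5a160e_an.ww]
  linear_combination c * h (j + 1) + h (j + 2) + β * h j

theorem Rec.per {φ : ℝ} (hφ : φ ^ 2 = φ + 1) {X : ℕ → ℝ} (h : Rec φ X) (j : ℕ) :
    X (j + 10) = X j := by
  have h0 := h j
  have h2 := h (j + 2)
  have h4 := h (j + 4)
  have h6 := h (j + 6)
  simp only [add_assoc, Nat.reduceAdd] at h2 h4 h6
  rw [h6, h4, h2, h0]
  linear_combination ((φ ^ 2 + φ - 1) * X (j + 2) + (φ + 1) * X j) * hφ

theorem Rec.shift {φ : ℝ} {X : ℕ → ℝ} (h : Rec φ X) (i : ℕ) : Rec φ (fun j => X (i + j)) :=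
  fun j => h (i + j)

/-- The values of a solution of the recurrence with two equal values four steps apart. -/
theorem Rec.vals {φ : ℝ} (hφ : φ ^ 2 = φ + 1) {X : ℕ → ℝ} (h : Rec φ X) (j : ℕ)
    (e : X (j + 4) = X j) : X (j + 2) = (2 - 2 * φ) * X j ∧ X (j + 6) = (φ - 2) * X j ∧
      X (j + 8) = (φ - 2) * X j := by
  have h0' := h j
  have h2 := h (j + 2)
  have h4 := h (j + 4)
  simp only [add_assoc, Nat.reduceAdd] at h2 h4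
  have a2 : X (j + 2) = (2 - 2 * φ) * X j := by
    linear_combination (φ - 1) * h0' - (φ - 1) * e - X (j + 2) * hφ
  refine ⟨a2, ?_, ?_⟩
  · rw [h2, e, a2]; ring
  · rw [h4, h2, e, a2]; linear_combination (-X j) * hφ

theorem Rec.vals' {φ : ℝ} (hφ : φ ^ 2 = φ + 1) {X : ℕ → ℝ} (h : Rec φ X) (j : ℕ) :
    X (j + 6) = φ * X (j + 2) + φ * X j ∧ X (j + 8) = -X (j + 2) - φ * X j := by
  have h0' := h j
  have h2 := h (j + 2)
  have h4 := h (j + 4)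
  simp only [add_assoc, Nat.reduceAdd] at h2 h4
  constructor
  · rw [h2, h0']; linear_combination X (j + 2) * hφ
  · rw [h4, h2, h0']; linear_combination (-(φ + 1) * X (j + 2) - X j) * hφ

namespace Pt

variable (p : Pt) {X : ℕ → ℝ}

theorem idU (h : Rec p.φ X) (j : ℕ) :
    (p.c2 ^ 2 + 1 + p.β ^ 2 - p.β * p.φ) * uu p.c1 p.β X (j + 2) +
      p.c2 * (1 + p.β) * (uu p.c1 p.β X (j + 3) + uu p.c1 p.β X (j + 1)) =
    p.β * (2 * p.ψ * ww p.c2 p.β X (j + 2) + 2 * ww p.c2 p.β X (j + 1) +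
      p.y * ww p.c2 p.β X (j + 3)) := by
  have e : p.β * uu p.c1 p.β X (j + 4) + p.c2 * (1 + p.β) * uu p.c1 p.β X (j + 3) +
      (p.c2 ^ 2 + 1 + p.β ^ 2) * uu p.c1 p.β X (j + 2) +
      p.c2 * (1 + p.β) * uu p.c1 p.β X (j + 1) + p.β * uu p.c1 p.β X j =
      -p.β * ww p.c2 p.β X j + (p.c1 - p.β * p.c2) * ww p.c2 p.β X (j + 1) +
      (p.c1 * p.c2 - 1 - p.β ^ 2) * ww p.c2 p.β X (j + 2) +
      (p.β * p.c1 - p.c2) * ww p.c2 p.β X (j + 3) - p.β * ww p.c2 p.β X (j + 4) := by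
    simp only [uu, ww, add_assoc, Nat.reduceAdd]; ring
  rw [p.h1, p.h2, p.h0] at e
  linear_combination e - p.β * h.uu p.c1 p.β j - p.β * h.ww p.c2 p.β j

theorem idW (h : Rec p.φ X) (j : ℕ) :
    (p.c1 ^ 2 + 1 + p.β ^ 2 - p.β * p.φ) * ww p.c2 p.β X (j + 2) -
      p.c1 * (1 + p.β) * (ww p.c2 p.β X (j + 3) + ww p.c2 p.β X (j + 1)) =
    p.β * (2 * p.ψ * uu p.c1 p.β X (j + 2) + 2 * uu p.c1 p.β X (j + 3) +
      p.y * uu p.c1 p.β X (j + 1)) := by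
  have e : p.β * ww p.c2 p.β X (j + 4) - p.c1 * (1 + p.β) * ww p.c2 p.β X (j + 3) +
      (p.c1 ^ 2 + 1 + p.β ^ 2) * ww p.c2 p.β X (j + 2) -
      p.c1 * (1 + p.β) * ww p.c2 p.β X (j + 1) + p.β * ww p.c2 p.β X j =
      -p.β * uu p.c1 p.β X j + (p.β * p.c1 - p.c2) * uu p.c1 p.β X (j + 1) +
      (p.c1 * p.c2 - 1 - p.β ^ 2) * uu p.c1 p.β X (j + 2) +
      (p.c1 - p.β * p.c2) * uu p.c1 p.β X (j + 3) - p.β * uu p.c1 p.β X (j + 4) := by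
    simp only [uu, ww, add_assoc, Nat.reduceAdd]; ring
  rw [p.h1, p.h2, p.h0] at e
  linear_combination e - p.β * h.uu p.c1 p.β j - p.β * h.ww p.c2 p.β j

end Pt

/-- Inversion of `n0 + n1 (S + S⁻¹)` on the solutions of the recurrence. -/
theorem Rec.inv {φ : ℝ} {U Z : ℕ → ℝ} (h : Rec φ U) {n0 n1 : ℝ}
    (e : ∀ j, n0 * U (j + 2) + n1 * (U (j + 3) + U (j + 1)) = Z j) (j : ℕ) :
    (n0 ^ 2 - n1 ^ 2 * (2 - φ)) * U (j + 3) = n0 * Z (j + 1) - n1 * (Z (j + 2) + Z j) := by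
  rw [← e, ← e, ← e]
  have := h (j + 1)
  simp only [add_assoc, Nat.reduceAdd] at this ⊢
  linear_combination n1 ^ 2 * this

theorem mul_bd {a b a1 a2 b1 b2 : ℝ} (ha : a1 ≤ a ∧ a ≤ a2) (hb : b1 ≤ b ∧ b ≤ b2)
    (h1 : 0 ≤ a1) (h2 : 0 ≤ b1) : a1 * b1 ≤ a * b ∧ a * b ≤ a2 * b2 :=
  ⟨mul_le_mul ha.1 hb.1 h2 (h1.trans ha.1),
    mul_le_mul ha.2 hb.2 (h2.trans hb.1) ((h1.trans ha.1).trans ha.2)⟩

theorem numW (p : Pt) {n0 n1 : ℝ} (e0 : n0 = p.c2 ^ 2 + 1 + p.β ^ 2 - p.β * p.φ)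
    (e1 : n1 = p.c2 * (1 + p.β)) : 0 < n0 ^ 2 - n1 ^ 2 * (2 - p.φ) ∧
    0 < n1 * ((3 - p.φ) * (2 * p.ψ + 2) + -p.y * (3 * p.φ - 4)) -
        n0 * ((3 - p.φ) * (2 * p.ψ + p.y)) ∧
    0 < n0 * (2 * p.φ + 2 - p.y) - n1 * (2 * p.ψ * p.φ) := by
  obtain ⟨bφ1, bφ2⟩ := p.bφ
  obtain ⟨bψ1, bψ2⟩ := p.bψ
  obtain ⟨by1, by2⟩ := p.by'
  have bn0 : 1.71 ≤ n0 ∧ n0 ≤ 1.76 := by
    rw [e0]; constructor <;> nlinarith [p.bβ.1, p.bβ.2, p.b2.1, p.b2.2]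
  have bn1 : 1.64 ≤ n1 ∧ n1 ≤ 1.67 := by
    rw [e1]; constructor <;> nlinarith [p.bβ.1, p.bβ.2, p.b2.1, p.b2.2]
  clear e0 e1
  have c1 := mul_bd (a := 3 - p.φ) (b := 2 * p.ψ + 2) (a1 := 1.38) (a2 := 1.39) (b1 := 4.5)
    (b2 := 4.6) ⟨by linarith, by linarith⟩ ⟨by linarith, by linarith⟩ (by norm_num) (by norm_num)
  have c1' := mul_bd (a := -p.y) (b := 3 * p.φ - 4) (a1 := 0.94) (a2 := 0.95) (b1 := 0.85)
    (b2 := 0.86) ⟨by linarith, by linarith⟩ ⟨by linarith, by linarith⟩ (by norm_num) (by norm_num)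
  have c2 := mul_bd (a := 3 - p.φ) (b := 2 * p.ψ + p.y) (a1 := 1.38) (a2 := 1.39) (b1 := 1.59)
    (b2 := 1.6) ⟨by linarith, by linarith⟩ ⟨by linarith, by linarith⟩ (by norm_num) (by norm_num)
  have c3 := mul_bd (a := 2 * p.ψ) (b := p.φ) (a1 := 2.54) (a2 := 2.55) (b1 := 1.61)
    (b2 := 1.62) ⟨by linarith, by linarith⟩ ⟨by linarith, by linarith⟩ (by norm_num) (by norm_num)
  have a0 := mul_bd bn0 bn0 (by norm_num) (by norm_num)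
  have a1 := mul_bd bn1 bn1 (by norm_num) (by norm_num)
  have a2 := mul_bd a1 (b := 2 - p.φ) (b1 := 0.38) (b2 := 0.39) ⟨by linarith, by linarith⟩
    (by norm_num) (by norm_num)
  have a3 := mul_bd bn1 ⟨add_le_add c1.1 c1'.1, add_le_add c1.2 c1'.2⟩ (by norm_num) (by norm_num)
  have a4 := mul_bd bn0 c2 (by norm_num) (by norm_num)
  have a5 := mul_bd bn0 (b := 2 * p.φ + 2 - p.y) (b1 := 6.1) (b2 := 6.2)
    ⟨by linarith, by linarith⟩ (by norm_num) (by norm_num)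
  have a6 := mul_bd bn1 c3 (by norm_num) (by norm_num)
  refine ⟨?_, ?_, ?_⟩
  · simp only [sq]; linarith [a0.1, a2.2]
  · linarith [a3.1, a4.2]
  · linarith [a5.1, a6.2]

theorem numU (p : Pt) {n0 n1 : ℝ} (e0 : n0 = p.c1 ^ 2 + 1 + p.β ^ 2 - p.β * p.φ)
    (e1 : n1 = p.c1 * (1 + p.β)) : 0 < n0 ^ 2 - (-n1) ^ 2 * (2 - p.φ) ∧
    0 < n1 * ((3 - p.φ) * (2 * p.ψ - p.y) + 2 * (3 * p.φ - 4)) -
          n0 * ((3 - p.φ) * (2 * p.ψ - p.y)) ∧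
    0 < n0 * (2 * p.φ + 2 + 2 * p.φ * -p.y) - n1 * (2 * p.ψ * (p.φ - 1)) := by
  obtain ⟨bφ1, bφ2⟩ := p.bφ
  obtain ⟨bψ1, bψ2⟩ := p.bψ
  obtain ⟨by1, by2⟩ := p.by'
  have bn0 : 2.59 ≤ n0 ∧ n0 ≤ 2.62 := by
    rw [e0]; constructor <;> nlinarith [p.bβ.1, p.bβ.2, p.b1.1, p.b1.2]
  have bn1 : 2.14 ≤ n1 ∧ n1 ≤ 2.16 := by
    rw [e1]; constructor <;> nlinarith [p.bβ.1, p.bβ.2, p.b1.1, p.b1.2]
  clear e0 e1
  have c2 := mul_bd (a := 3 - p.φ) (b := 2 * p.ψ - p.y) (a1 := 1.3819) (a2 := 1.382) (b1 := 3.49)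
    (b2 := 3.5) ⟨by linarith, by linarith⟩ ⟨by linarith, by linarith⟩ (by norm_num) (by norm_num)
  have c3 := mul_bd (a := 2 * p.ψ) (b := p.φ - 1) (a1 := 2.54) (a2 := 2.55) (b1 := 0.61)
    (b2 := 0.62) ⟨by linarith, by linarith⟩ ⟨by linarith, by linarith⟩ (by norm_num) (by norm_num)
  have c4 := mul_bd (a := 2 * p.φ) (b := -p.y) (a1 := 3.2) (a2 := 3.3) (b1 := 0.94)
    (b2 := 0.95) ⟨by linarith, by linarith⟩ ⟨by linarith, by linarith⟩ (by norm_num) (by norm_num)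
  have a0 := mul_bd bn0 bn0 (by norm_num) (by norm_num)
  have a1 := mul_bd bn1 bn1 (by norm_num) (by norm_num)
  have a2 := mul_bd a1 (b := 2 - p.φ) (b1 := 0.38) (b2 := 0.39) ⟨by linarith, by linarith⟩
    (by norm_num) (by norm_num)
  have a3 := mul_bd bn1 (b := (3 - p.φ) * (2 * p.ψ - p.y) + 2 * (3 * p.φ - 4)) (b1 := 6.5)
    (b2 := 6.6) ⟨by linarith [c2.1], by linarith [c2.2]⟩ (by norm_num) (by norm_num)
  have a4 := mul_bd bn0 c2 (by norm_num) (by norm_num)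
  have a5 := mul_bd bn0 (b := 2 * p.φ + 2 + 2 * p.φ * -p.y) (b1 := 8) (b2 := 9)
    ⟨by linarith [c4.1], by linarith [c4.2]⟩ (by norm_num) (by norm_num)
  have a6 := mul_bd bn1 c3 (by norm_num) (by norm_num)
  refine ⟨?_, ?_, ?_⟩
  · rw [neg_sq]; simp only [sq]; linarith [a0.1, a2.2]
  · linarith [a3.1, a4.2]
  · linarith [a5.1, a6.2]

theorem zero_of_zero (p : Pt) {X : ℕ → ℝ} (h : Rec p.φ X) (hu : ∀ j, uu p.c1 p.β X (j + 3) = 0)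
    (hw : ∀ j, ww p.c2 p.β X (j + 3) = 0) (j : ℕ) : X j = 0 := by
  have h1 := hu (j + 6)
  have h2 := hw (j + 6)
  simp only [uu, ww, add_assoc, Nat.reduceAdd] at h1 h2
  have h3 : (p.c1 + p.c2) * X (j + 10) = 0 := by linear_combination h1 + h2
  rw [h.per p.hφ] at h3
  exact (mul_eq_zero.1 h3).resolve_left (by linarith [p.b1.1, p.b2.1])

theorem Rec.zero {φ : ℝ} {X : ℕ → ℝ} (h : Rec φ X) (h0 : X 0 = 0) (h1 : X 1 = 0) (h2 : X 2 = 0)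
    (h3 : X 3 = 0) (j : ℕ) : X j = 0 := by
  induction j using Nat.strong_induction_on with
  | _ j ih =>
    match j with
    | 0 => exact h0
    | 1 => exact h1
    | 2 => exact h2
    | 3 => exact h3
    | j + 4 => rw [h j, ih (j + 2) (by omega), ih j (by omega)]; ring

theorem topW (p : Pt) {X : ℕ → ℝ} (h : Rec p.φ X)
    (mono : ∀ a b, 0 ≤ (uu p.c1 p.β X a - uu p.c1 p.β X b) * (ww p.c2 p.β X a - ww p.c2 p.β X b))
    (t0 : ∀ k, ww p.c2 p.β X k ≤ ww p.c2 p.β X 0) (t1 : ∀ k, ww p.c2 p.β X k ≤ ww p.c2 p.β X 1)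
    (t4 : ∀ k, ww p.c2 p.β X k ≤ ww p.c2 p.β X 4) (j : ℕ) : X j = 0 := by
  have hU := h.uu p.c1 p.β
  have hW := h.ww p.c2 p.β
  have key := hU.inv (p.idU h)
  have hφ := p.hφ
  obtain ⟨bφ1, -⟩ := p.bφ
  obtain ⟨hΔ, c4, c5⟩ := numW p rfl rfl
  have bφ2 := p.bφ.2
  have bβ1 := p.bβ.1
  set U := uu p.c1 p.β X
  set W := ww p.c2 p.β X
  set n0 := p.c2 ^ 2 + 1 + p.β ^ 2 - p.β * p.φ
  set n1 := p.c2 * (1 + p.β)
  have e1 : W 1 = W 0 := le_antisymm (t0 1) (t1 0)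
  have e4 : W 4 = W 0 := le_antisymm (t0 4) (t4 0)
  obtain ⟨e2, e6, e8⟩ := hW.vals hφ 0 e4
  obtain ⟨e7, e9⟩ := hW.vals' hφ 1
  have e5 := hW 1
  have e10 := hW.per hφ 0
  have e11 := hW.per hφ 1
  have e12 := hW.per hφ 2
  simp only [zero_add, Nat.reduceAdd] at e2 e6 e8 e7 e9 e5 e10 e11 e12
  set M := W 0
  have hM : 0 ≤ M := by
    have h2 := t0 2
    rw [e2] at h2
    exact nonneg_of_mul_nonneg_right (a := 2 * p.φ - 1) (by linarith) (by linarith)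
  obtain ⟨ξ, hξ⟩ : ∃ ξ, W 3 = ξ + (2 - 2 * p.φ) * M := ⟨W 3 - (2 - 2 * p.φ) * M, by ring⟩
  have hξ0 : 0 ≤ ξ := by
    have h5 := t0 5
    rw [e5, e1, hξ] at h5
    have : 0 ≤ p.φ * ξ := by linear_combination h5 - 2 * M * hφ
    exact nonneg_of_mul_nonneg_right this (by linarith)
  rcases hM.eq_or_lt with hM | hM
  · have hξ1 : ξ = 0 := by have := t0 3; rw [hξ, ← hM] at this; linarith
    have hw := hW.zero hM.symm (by rw [e1, ← hM]) (by rw [e2, ← hM]; ring)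
      (by rw [hξ, hξ1, ← hM]; ring)
    refine zero_of_zero p h (fun j => ?_) (fun j => hw _) j
    have := key j
    simp only [hw, mul_zero, add_zero, sub_zero] at this
    exact (mul_eq_zero.1 this).resolve_left hΔ.ne'
  · exfalso
    have k8 := key 5
    have k10 := key 7
    simp only [Nat.reduceAdd] at k8 k10
    rw [e9, e8, e7, e6, e10, e1, hξ] at k8
    rw [e12, e11, e10, e9, e8, e2, e1, hξ] at k10
    have d : (n0 ^ 2 - n1 ^ 2 * (2 - p.φ)) * (U 8 - U 10) =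
        p.β * ((n1 * ((3 - p.φ) * (2 * p.ψ + 2) + -p.y * (3 * p.φ - 4)) -
          n0 * ((3 - p.φ) * (2 * p.ψ + p.y))) * M +
          (n0 * (2 * p.φ + 2 - p.y) - n1 * (2 * p.ψ * p.φ)) * ξ) := by
      linear_combination k8 - k10 + p.β * M * (4 * n1 * p.ψ - 4 * n0) * hφ
    have d1 : 0 < (n0 ^ 2 - n1 ^ 2 * (2 - p.φ)) * (U 8 - U 10) := by
      rw [d]
      have := mul_pos c4 hM
      have := mul_nonneg c5.le hξ0
      apply mul_pos <;> linarith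
    have d2 : 0 < U 8 - U 10 := (pos_iff_pos_of_mul_pos d1).1 hΔ
    have d3 := mono 8 10
    rw [e8, e10] at d3
    have d4 : 0 < (3 - p.φ) * M := mul_pos (by linarith) hM
    linarith [mul_pos d2 d4]

theorem topU (p : Pt) {X : ℕ → ℝ} (h : Rec p.φ X)
    (mono : ∀ a b, 0 ≤ (uu p.c1 p.β X a - uu p.c1 p.β X b) * (ww p.c2 p.β X a - ww p.c2 p.β X b))
    (t0 : ∀ k, uu p.c1 p.β X k ≤ uu p.c1 p.β X 0) (t3 : ∀ k, uu p.c1 p.β X k ≤ uu p.c1 p.β X 3)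
    (t4 : ∀ k, uu p.c1 p.β X k ≤ uu p.c1 p.β X 4) (j : ℕ) : X j = 0 := by
  have hU := h.uu p.c1 p.β
  have hW := h.ww p.c2 p.β
  have key := hW.inv (n0 := p.c1 ^ 2 + 1 + p.β ^ 2 - p.β * p.φ) (n1 := -(p.c1 * (1 + p.β)))
    (Z := fun j => p.β * (2 * p.ψ * uu p.c1 p.β X (j + 2) + 2 * uu p.c1 p.β X (j + 3) +
      p.y * uu p.c1 p.β X (j + 1))) (fun j => by linear_combination p.idW h j)
  have hφ := p.hφ
  obtain ⟨bφ1, -⟩ := p.bφ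
  obtain ⟨hΔ, c4, c5⟩ := numU p rfl rfl
  have bφ2 := p.bφ.2
  have bβ1 := p.bβ.1
  set U := uu p.c1 p.β X
  set W := ww p.c2 p.β X
  set n0 := p.c1 ^ 2 + 1 + p.β ^ 2 - p.β * p.φ
  set n1 := p.c1 * (1 + p.β)
  have e3 : U 3 = U 0 := le_antisymm (t0 3) (t3 0)
  have e4 : U 4 = U 0 := le_antisymm (t0 4) (t4 0)
  obtain ⟨e2, e6, e8⟩ := hU.vals hφ 0 e4
  obtain ⟨e9, e11⟩ := hU.vals' hφ 3
  have e7 := hU 3
  have e10 := hU.per hφ 0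
  have e1 := hU.per hφ 1
  have e12 := hU.per hφ 2
  simp only [zero_add, Nat.reduceAdd] at e2 e6 e8 e7 e9 e1 e10 e11 e12
  set M := U 0
  have hM : 0 ≤ M := by
    have h2 := t0 2
    rw [e2] at h2
    exact nonneg_of_mul_nonneg_right (a := 2 * p.φ - 1) (by linarith) (by linarith)
  obtain ⟨ξ, hξ⟩ : ∃ ξ, U 5 = ξ + (2 - 2 * p.φ) * M := ⟨U 5 - (2 - 2 * p.φ) * M, by ring⟩
  have hξ0 : 0 ≤ ξ := by
    have h5 := t0 7
    rw [e7, e3, hξ] at h5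
    have : 0 ≤ p.φ * ξ := by linear_combination h5 - 2 * M * hφ
    exact nonneg_of_mul_nonneg_right this (by linarith)
  rcases hM.eq_or_lt with hM | hM
  · have hξ1 : ξ = 0 := by have := t0 5; rw [hξ, ← hM] at this; linarith
    have hu := hU.zero hM.symm (by rw [← e1, e11, hξ, hξ1, e3, ← hM]; ring)
      (by rw [e2, ← hM]; ring) (by rw [e3, ← hM])
    refine zero_of_zero p h (fun j => hu _) (fun j => ?_) j
    have := key j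
    simp only [hu, mul_zero, add_zero, sub_zero] at this
    exact (mul_eq_zero.1 this).resolve_left hΔ.ne'
  · exfalso
    have k8 := key 5
    have k10 := key 7
    simp only [Nat.reduceAdd] at k8 k10
    rw [e9, e8, e7, e6, e10, e3, hξ] at k8
    rw [e12, e11, e10, e9, e8, e2, e3, hξ] at k10
    have d : (n0 ^ 2 - (-n1) ^ 2 * (2 - p.φ)) * (W 8 - W 10) =
        p.β * ((n1 * ((3 - p.φ) * (2 * p.ψ - p.y) + 2 * (3 * p.φ - 4)) -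
          n0 * ((3 - p.φ) * (2 * p.ψ - p.y))) * M +
          (n0 * (2 * p.φ + 2 + 2 * p.φ * -p.y) - n1 * (2 * p.ψ * (p.φ - 1))) * ξ) := by
      linear_combination k8 - k10 + p.β * M * (4 * n1 * p.ψ - 4 * n0 + 4 * n0 * p.y) * hφ
    have d1 : 0 < (n0 ^ 2 - (-n1) ^ 2 * (2 - p.φ)) * (W 8 - W 10) := by
      rw [d]
      have := mul_pos c4 hM
      have := mul_nonneg c5.le hξ0
      apply mul_pos <;> linarith
    have d2 : 0 < W 8 - W 10 := (pos_iff_pos_of_mul_pos d1).1 hΔ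
    have d3 := mono 8 10
    rw [e8, e10] at d3
    have d4 : 0 < (3 - p.φ) * M := mul_pos (by linarith) hM
    linarith [mul_pos d2 d4]

end Pool.Agent.Lib.MP_5a160e_an
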