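import Pool.Agent.Lib.MP_5a160e_an.Primal

/-!
The critical tuning with seven correct digits, and the solutions of the recurrence as tables.
-/

namespace Pool.Agent.Lib.MP_5a160e_an

open Finset

/-- Seven digits of the critical tuning. -/
def Tight (p : Pt) : Prop :=
  |p.φ - 1.618034| ≤ 1 / 10000000 ∧ |p.β - 0.4677522| ≤ 1 / 10000000 ∧
    |p.c1 - 1.463487| ≤ 1 / 10000000 ∧ |p.c2 - 1.1287652| ≤ 1 / 10000000

theorem exists_tight : ∃ p : Pt, Tight p := by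
  obtain ⟨φ, hφ, bφ⟩ : ∃ φ : ℝ, φ ^ 2 = φ + 1 ∧ 1.6180339887 < φ ∧ φ < 1.6180339888 := by
    have h5 : √5 ^ 2 = 5 := Real.sq_sqrt (by norm_num)
    have l : 2.2360679774 < √5 := Real.lt_sqrt_of_sq_lt (by norm_num)
    have u : √5 < 2.2360679776 := (Real.sqrt_lt' (by norm_num)).2 (by norm_num)
    exact ⟨(1 + √5) / 2, by nlinarith, by linarith, by linarith⟩
  obtain ⟨ψ, hψ, bψ⟩ : ∃ ψ : ℝ, ψ ^ 2 = φ ∧ 1.272019649 < ψ ∧ ψ < 1.27201965 := by
    refine ⟨√φ, Real.sq_sqrt (by linarith), Real.lt_sqrt_of_sq_lt ?_,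
      (Real.sqrt_lt' (by norm_num)).2 ?_⟩
    · refine lt_trans ?_ bφ.1; norm_num
    · refine lt_trans bφ.2 ?_; norm_num
  obtain ⟨y, hy, by'⟩ : ∃ y : ℝ, y * (φ + 2 + 2 * ψ) = 2 * φ - 4 - 4 * ψ ∧
      -0.949682088 < y ∧ y < -0.949682086 := by
    have h0 : 0 < φ + 2 + 2 * ψ := by linarith
    refine ⟨(2 * φ - 4 - 4 * ψ) / (φ + 2 + 2 * ψ), by field_simp, ?_, ?_⟩
    · rw [lt_div_iff₀ h0]; linarith
    · rw [div_lt_iff₀ h0]; linarith
  have y2 := mul_bd (a := -y) (b := -y) (a1 := 0.949682086) (a2 := 0.949682088)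
    (b1 := 0.949682086) (b2 := 0.949682088) ⟨by linarith, by linarith⟩ ⟨by linarith, by linarith⟩
    (by norm_num) (by norm_num)
  obtain ⟨β, bβ, hβ⟩ : ∃ β ∈ Set.Icc (0.46775224 : ℝ) 0.46775225,
      β ^ 2 * (2 - β * y) * (2 * β - y) -
      (1 + β ^ 2 + β * (2 * ψ - φ)) * (1 - β ^ 2) ^ 2 = 0 := by
    refine intermediate_value_Icc (f := fun β : ℝ => β ^ 2 * (2 - β * y) * (2 * β - y) -
      (1 + β ^ 2 + β * (2 * ψ - φ)) * (1 - β ^ 2) ^ 2) (by norm_num) (by fun_prop) ⟨?_, ?_⟩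
    · linarith [by'.1, by'.2, y2.1, y2.2, bφ.1, bφ.2, bψ.1, bψ.2]
    · linarith [by'.1, by'.2, y2.1, y2.2, bφ.1, bφ.2, bψ.1, bψ.2]
  rw [Set.mem_Icc] at bβ
  have b2 := mul_bd (a := β) (b := β) bβ bβ (by norm_num) (by norm_num)
  have b1y := mul_bd (a := β) (b := -y) (b1 := 0.949682086) (b2 := 0.949682088) bβ
    ⟨by linarith, by linarith⟩ (by norm_num) (by norm_num)
  have b2y := mul_bd (a := β) (b := β * -y) bβ b1y (by norm_num) (by norm_num)
  have h0 : 0 < 1 - β ^ 2 := by linarith [b2.2]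
  have l1 : 1.4634869 < β * (2 - β * y) / (1 - β ^ 2) := by
    rw [lt_div_iff₀ h0]; linarith [bβ.1, b2.1, b2y.1]
  have u1 : β * (2 - β * y) / (1 - β ^ 2) < 1.4634871 := by
    rw [div_lt_iff₀ h0]; linarith [bβ.2, b2.2, b2y.2]
  have l2 : 1.1287651 < β * (2 * β - y) / (1 - β ^ 2) := by
    rw [lt_div_iff₀ h0]; linarith [b2.1, b1y.1]
  have u2 : β * (2 * β - y) / (1 - β ^ 2) < 1.1287653 := by
    rw [div_lt_iff₀ h0]; linarith [b2.2, b1y.2]
  refine ⟨⟨φ, ψ, y, β, β * (2 - β * y) / (1 - β ^ 2), β * (2 * β - y) / (1 - β ^ 2), hφ, hψ, hy,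
    by field_simp; ring, by field_simp; ring, ?_, ⟨by linarith, by linarith⟩,
    ⟨by linarith, by linarith⟩, ⟨by linarith, by linarith⟩, ⟨by linarith [bβ.1], by linarith [bβ.2]⟩,
    ⟨by linarith, by linarith⟩, ⟨by linarith, by linarith⟩⟩, ?_, ?_, ?_, ?_⟩
  · field_simp; linear_combination hβ
  · exact abs_le.2 ⟨by linarith, by linarith⟩
  · exact abs_le.2 ⟨by linarith [bβ.1], by linarith [bβ.2]⟩
  · exact abs_le.2 ⟨by linarith, by linarith⟩
  · exact abs_le.2 ⟨by linarith, by linarith⟩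

/-- The solution of the recurrence as a table of period ten. -/
def tb (φ : ℝ) (x : ℕ → ℝ) : ℕ → ℝ
  | 0 => x 0
  | 1 => x 1
  | 2 => x 2
  | 3 => x 3
  | 4 => -φ * x 2 - x 0
  | 5 => -φ * x 3 - x 1
  | 6 => φ * x 2 + φ * x 0
  | 7 => φ * x 3 + φ * x 1
  | 8 => -x 2 - φ * x 0
  | 9 => -x 3 - φ * x 1
  | j + 10 => tb φ x j

theorem tb_eq {φ : ℝ} (hφ : φ ^ 2 = φ + 1) {X : ℕ → ℝ} (h : Rec φ X) : ∀ j, X j = tb φ X j
  | 0 => rfl
  | 1 => rfl
  | 2 => rfl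
  | 3 => rfl
  | 4 => h 0
  | 5 => h 1
  | 6 => (h.vals' hφ 0).1
  | 7 => (h.vals' hφ 1).1
  | 8 => (h.vals' hφ 0).2
  | 9 => (h.vals' hφ 1).2
  | j + 10 => (h.per hφ j).trans (tb_eq hφ h j)

theorem tb_bd {φ M : ℝ} (hφ : |φ| ≤ 2) {x : ℕ → ℝ} (hx : ∀ k < 4, |x k| ≤ M) (j : ℕ) :
    |tb φ x j| ≤ 4 * M := by
  have m : ∀ k < 4, |φ * x k| ≤ 2 * M := fun k hk => by
    rw [abs_mul]; exact mul_le_mul hφ (hx k hk) (abs_nonneg _) (by norm_num)
  have a0 := abs_le.1 (hx 0 (by norm_num))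
  have a1 := abs_le.1 (hx 1 (by norm_num))
  have a2 := abs_le.1 (hx 2 (by norm_num))
  have a3 := abs_le.1 (hx 3 (by norm_num))
  have m0 := abs_le.1 (m 0 (by norm_num))
  have m1 := abs_le.1 (m 1 (by norm_num))
  have m2 := abs_le.1 (m 2 (by norm_num))
  have m3 := abs_le.1 (m 3 (by norm_num))
  induction j using Nat.strong_induction_on with
  | _ j ih =>
    match j with
    | 0 | 1 | 2 | 3 | 4 | 5 | 6 | 7 | 8 | 9 =>
      simp only [tb]
      exact abs_le.2 ⟨by linarith, by linarith⟩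
    | j + 10 => exact ih j (by omega)

theorem tb_near {φ φ' ε M : ℝ} (hφ : |φ - φ'| ≤ ε) {x : ℕ → ℝ} (hx : ∀ k < 4, |x k| ≤ M) (j : ℕ) :
    |tb φ x j - tb φ' x j| ≤ 2 * ε * M := by
  have m : ∀ k < 4, |(φ - φ') * x k| ≤ ε * M := fun k hk => by
    rw [abs_mul]; exact mul_le_mul hφ (hx k hk) (abs_nonneg _) ((abs_nonneg _).trans hφ)
  have m0 := abs_le.1 (m 0 (by norm_num))
  have m1 := abs_le.1 (m 1 (by norm_num))
  have m2 := abs_le.1 (m 2 (by norm_num))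
  have m3 := abs_le.1 (m 3 (by norm_num))
  induction j using Nat.strong_induction_on with
  | _ j ih =>
    match j with
    | 0 | 1 | 2 | 3 | 4 | 5 | 6 | 7 | 8 | 9 =>
      simp only [tb]
      exact abs_le.2 ⟨by linarith, by linarith⟩
    | j + 10 => exact ih j (by omega)

theorem prod_near {a a' b b' α β A B : ℝ} (h1 : |a - a'| ≤ α) (h2 : |b - b'| ≤ β) (h3 : |b| ≤ B)
    (h4 : |a'| ≤ A) : |a * b - a' * b'| ≤ α * B + A * β := by
  have e : a * b - a' * b' = (a - a') * b + a' * (b - b') := by ring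
  rw [e]
  refine (abs_add_le _ _).trans (add_le_add ?_ ?_) <;> rw [abs_mul]
  · exact mul_le_mul h1 h3 (abs_nonneg _) ((abs_nonneg _).trans h1)
  · exact mul_le_mul h4 h2 (abs_nonneg _) ((abs_nonneg _).trans h4)

/-- The rational model of the products along a solution of the recurrence. -/
noncomputable def Qt (x : ℕ → ℝ) (s t : ℕ) : ℝ :=
  uu 1.463487 0.4677522 (tb 1.618034 x) s * ww 1.1287652 0.4677522 (tb 1.618034 x) t

theorem uw_near {p : Pt} (hp : Tight p) {X : ℕ → ℝ} (h : Rec p.φ X) (s t : ℕ) :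
    |uu p.c1 p.β X s * ww p.c2 p.β X t - Qt X s t| ≤
      1 / 25000 * (X 0 * X 0 + X 1 * X 1 + X 2 * X 2 + X 3 * X 3) := by
  obtain ⟨e1, e2, e3, e4⟩ := hp
  set n := X 0 * X 0 + X 1 * X 1 + X 2 * X 2 + X 3 * X 3 with hn
  have s0 := mul_self_nonneg (X 0)
  have s1 := mul_self_nonneg (X 1)
  have s2 := mul_self_nonneg (X 2)
  have s3 := mul_self_nonneg (X 3)
  have hM : √n * √n = n := Real.mul_self_sqrt (by linarith)
  have M0 : 0 ≤ √n := Real.sqrt_nonneg n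
  have hx : ∀ k < 4, |X k| ≤ √n := fun k hk => Real.abs_le_sqrt (by
    interval_cases k <;> linarith)
  generalize √n = M at hM M0 hx
  have bX : ∀ j, |X j| ≤ 4 * M := fun j => by
    rw [tb_eq p.hφ h j]
    exact tb_bd (abs_le.2 ⟨by linarith [p.bφ.1], by linarith [p.bφ.2]⟩) hx j
  have bY := tb_bd (φ := 1.618034) (abs_le.2 ⟨by norm_num, by norm_num⟩) hx
  have nr : ∀ j, |X j - tb 1.618034 X j| ≤ 2 * (1 / 10000000) * M := fun j => by
    nth_rewrite 1 [tb_eq p.hφ h j]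
    exact tb_near e1 hx j
  rw [Qt]
  generalize tb 1.618034 X = Y at bY nr ⊢
  have nβ : ∀ j, |p.β * X j - 0.4677522 * Y j| ≤ _ := fun j =>
    prod_near (A := 1 / 2) e2 (nr j) (bX j) (abs_le.2 ⟨by norm_num, by norm_num⟩)
  have n1 : ∀ j, |p.c1 * X j - 1.463487 * Y j| ≤ _ := fun j =>
    prod_near (A := 3 / 2) e3 (nr j) (bX j) (abs_le.2 ⟨by norm_num, by norm_num⟩)
  have n2 : ∀ j, |p.c2 * X j - 1.1287652 * Y j| ≤ _ := fun j =>
    prod_near (A := 3 / 2) e4 (nr j) (bX j) (abs_le.2 ⟨by norm_num, by norm_num⟩)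
  have u1 : |uu p.c1 p.β X s - uu 1.463487 0.4677522 Y s| ≤ 14 / 10000000 * M := by
    have a := abs_le.1 (nβ s)
    have b := abs_le.1 (n1 (s + 1))
    have c := abs_le.1 (nr (s + 2))
    simp only [uu]
    exact abs_le.2 ⟨by linarith, by linarith⟩
  have w1 : |ww p.c2 p.β X t - ww 1.1287652 0.4677522 Y t| ≤ 14 / 10000000 * M := by
    have a := abs_le.1 (nβ t)
    have b := abs_le.1 (n2 (t + 1))
    have c := abs_le.1 (nr (t + 2))
    simp only [ww]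
    exact abs_le.2 ⟨by linarith, by linarith⟩
  have u2 : |uu 1.463487 0.4677522 Y s| ≤ 12 * M := by
    have a := abs_le.1 (bY s)
    have b := abs_le.1 (bY (s + 1))
    have c := abs_le.1 (bY (s + 2))
    simp only [uu]
    exact abs_le.2 ⟨by linarith, by linarith⟩
  have w2 : |ww p.c2 p.β X t| ≤ 13 * M := by
    have a := abs_le.1 (bY t)
    have b := abs_le.1 (bY (t + 1))
    have c := abs_le.1 (bY (t + 2))
    have d := abs_le.1 w1
    simp only [ww] at d ⊢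
    exact abs_le.2 ⟨by linarith, by linarith⟩
  refine (prod_near u1 w1 w2 u2).trans ?_
  nlinarith

/-- The interpolation defect with the function values eliminated along consecutive steps. -/
def Dh (P : ℕ → ℕ → ℝ) (a b : ℕ) : ℝ :=
  ∑ j ∈ range a, (P (j + 1) (j + 1) - P (j + 1) j) -
    ∑ j ∈ range b, (P (j + 1) (j + 1) - P (j + 1) j) - P b a + P b b

theorem Dh_near {P Q : ℕ → ℕ → ℝ} {η : ℝ} (h : ∀ a b, |P a b - Q a b| ≤ η) {a b : ℕ}
    (ha : a ≤ 12) (hb : b ≤ 12) : |Dh P a b - Dh Q a b| ≤ 50 * η := by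
  have η0 : 0 ≤ η := (abs_nonneg _).trans (h 0 0)
  have s : ∀ n : ℕ, |∑ j ∈ range n, (P (j + 1) (j + 1) - P (j + 1) j) -
      ∑ j ∈ range n, (Q (j + 1) (j + 1) - Q (j + 1) j)| ≤ 2 * (n * η) := by
    intro n
    induction n with
    | zero => simp
    | succ n ih =>
      have a := abs_le.1 ih
      have b := abs_le.1 (h (n + 1) (n + 1))
      have c := abs_le.1 (h (n + 1) n)
      rw [sum_range_succ, sum_range_succ]
      push_cast
      exact abs_le.2 ⟨by linarith, by linarith⟩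
  have sa := abs_le.1 (s a)
  have sb := abs_le.1 (s b)
  have a' : (a : ℝ) * η ≤ 12 * η := mul_le_mul_of_nonneg_right (by exact_mod_cast ha) η0
  have b' : (b : ℝ) * η ≤ 12 * η := mul_le_mul_of_nonneg_right (by exact_mod_cast hb) η0
  have c := abs_le.1 (h b a)
  have d := abs_le.1 (h b b)
  simp only [Dh]
  exact abs_le.2 ⟨by linarith, by linarith⟩

theorem Dh_sum {ι : Type} [Fintype ι] (Q : ι → ℕ → ℕ → ℝ) (a b : ℕ) :
    Dh (fun s t => ∑ i, Q i s t) a b = ∑ i, Dh (Q i) a b := by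
  have s : ∀ n, ∑ j ∈ range n, (∑ i, Q i (j + 1) (j + 1) - ∑ i, Q i (j + 1) j) =
      ∑ i, ∑ j ∈ range n, (Q i (j + 1) (j + 1) - Q i (j + 1) j) := fun n => by
    rw [sum_comm]
    exact sum_congr rfl fun j _ => (sum_sub_distrib _ _).symm
  simp only [Dh]
  rw [s, s, ← sum_sub_distrib, ← sum_sub_distrib, ← sum_add_distrib]

end Pool.Agent.Lib.MP_5a160e_an
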